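import Mathlib

open scoped Quaternion ContDiff
open MeasureTheory

namespace FPM

/-- the quaternions, the unit sphere `S³` in them, and `M = S³ × S³` (a compact group) -/
abbrev Q := ℍ[ℝ]
abbrev Sph := Metric.sphere (0 : Q) 1
abbrev M := Sph × Sph

/-- Borel σ-algebra of `M` -/
noncomputable instance instMeasM : MeasurableSpace M := borel M
instance instBorelM : BorelSpace M := ⟨rfl⟩

open Classical in
/-- radial projection to the sphere (junk value `1` at `0`) -/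
noncomputable def nz (q : Q) : Sph :=
  if h : q = 0 then 1 else ⟨(‖q‖⁻¹ : ℝ) • q, by
    rw [mem_sphere_zero_iff_norm, norm_smul, norm_inv, norm_norm,
      inv_mul_cancel₀ (norm_ne_zero_iff.mpr h)]⟩

/-- radial projection `ℍ × ℍ → S³ × S³` -/
noncomputable def nrm (x : Q × Q) : M := (nz x.1, nz x.2)

/-- the open set on which the radial projection is smooth -/
def Om : Set (Q × Q) := {x | x.1 ≠ 0 ∧ x.2 ≠ 0}

/-- smooth functions on `S³ × S³` -/
def Sm (f : M → ℝ) : Prop := ContDiffOn ℝ ∞ (fun x => f (nrm x)) Om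

/-- the inclusion `M → ℍ × ℍ` -/
def inc (x : M) : Q × Q := ((x.1 : Q), (x.2 : Q))

/-- the quaternion units -/
def qu : Fin 3 → Q := ![⟨0, 1, 0, 0⟩, ⟨0, 0, 1, 0⟩, ⟨0, 0, 0, 1⟩]

/-- six vector fields `(q x₁, 0)`, `(0, q x₂)`, `q = i, j, k`, on `ℍ × ℍ` (tangent to `M`) -/
noncomputable def dir (i : Fin 6) (y : Q × Q) : Q × Q :=
  (![(qu 0 * y.1, (0 : Q)), (qu 1 * y.1, (0 : Q)), (qu 2 * y.1, (0 : Q)),
    ((0 : Q), qu 0 * y.2), ((0 : Q), qu 1 * y.2), ((0 : Q), qu 2 * y.2)] :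
      Fin 6 → Q × Q) i

/-- the derivative of `f : M → ℝ` along the `i`-th vector field -/
noncomputable def E (i : Fin 6) (f : M → ℝ) (x : M) : ℝ :=
  fderiv ℝ (fun y => f (nrm y)) (inc x) (dir i (inc x))

/-- structure constants: `[E i, E j] = ∑ k, cst i j k • E k` -/
noncomputable def cst (i j k : Fin 6) : ℝ :=
  if (i, j, k) ∈ ([(0,1,2), (1,2,0), (2,0,1), (3,4,5), (4,5,3), (5,3,4)] :
      List (Fin 6 × Fin 6 × Fin 6)) then -2
  else if (i, j, k) ∈ ([(1,0,2), (2,1,0), (0,2,1), (4,3,5), (5,4,3), (3,5,4)] :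
      List (Fin 6 × Fin 6 × Fin 6)) then 2
  else 0

/-- normalised Haar measure -/
noncomputable def mu : Measure M := Measure.haarMeasure ⊤

/-- inner product of unit quaternions -/
noncomputable def ip (a b : Sph) : ℝ := inner ℝ (a : Q) (b : Q)

/-- product kernels -/
noncomputable def kk (a b : ℕ) (x z : M) : ℝ := (1 + ip x.1 z.1) ^ a * (1 + ip x.2 z.2) ^ b

/-- mollifier kernel (not normalised) -/
noncomputable def kr (m : ℕ) (x z : M) : ℝ := kk m m x z

/-- `⟨q_i a, b⟩` -/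
noncomputable def dq (i : Fin 3) (a b : Sph) : ℝ := inner ℝ (qu i * (a : Q)) (b : Q)

/-- normalising constant -/
noncomputable def Im (m : ℕ) : ℝ := ∫ z, kr m 1 z ∂mu

/-- mollification -/
noncomputable def Jm (m : ℕ) (f : M → ℝ) (x : M) : ℝ := (Im m)⁻¹ * ∫ z, kr m x z * f z ∂mu

/-- the derivative of the kernel in the first variable -/
noncomputable def dkr (i : Fin 6) (m : ℕ) (x z : M) : ℝ :=
  (![m * kk (m-1) m x z * dq 0 x.1 z.1, m * kk (m-1) m x z * dq 1 x.1 z.1,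
    m * kk (m-1) m x z * dq 2 x.1 z.1, m * kk m (m-1) x z * dq 0 x.2 z.2,
    m * kk m (m-1) x z * dq 1 x.2 z.2, m * kk m (m-1) x z * dq 2 x.2 z.2] : Fin 6 → ℝ) i

/-- distance on `M` -/
noncomputable def dd (x z : M) : ℝ := ‖(x.1 : Q) - (z.1 : Q)‖ + ‖(x.2 : Q) - (z.2 : Q)‖

/-- squared `L²`-norm -/
noncomputable def n2 (f : M → ℝ) : ℝ := ∫ x, f x ^ 2 ∂mu

end FPM
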