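import Pool.Agent.Helper427.FPM.Defs

open scoped Quaternion ContDiff
open MeasureTheory

namespace FPM



theorem nrm_inc_nz_coe (a : Sph) : (a : Q) ≠ 0 ∧ nz (a : Q) = a := by
  have h1 : ‖(a : Q)‖ = 1 := mem_sphere_zero_iff_norm.1 a.2
  have h0 : (a : Q) ≠ 0 := by
    intro h
    rw [h, norm_zero] at h1
    exact zero_ne_one h1
  refine ⟨h0, ?_⟩
  unfold nz
  rw [dif_neg h0]
  apply Subtype.ext
  show (‖(a : Q)‖⁻¹ : ℝ) • (a : Q) = a
  rw [h1, inv_one, one_smul]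

theorem nrm_inc : (∀ x : M, nrm (inc x) = x ∧ inc x ∈ Om) ∧ IsOpen Om := by
  refine ⟨fun x => ⟨?_, (nrm_inc_nz_coe x.1).1, (nrm_inc_nz_coe x.2).1⟩, ?_⟩
  · unfold nrm inc
    exact Prod.ext (nrm_inc_nz_coe x.1).2 (nrm_inc_nz_coe x.2).2
  · have h1 : IsOpen {x : Q × Q | x.1 ≠ 0} := isOpen_ne_fun continuous_fst continuous_const
    have h2 : IsOpen {x : Q × Q | x.2 ≠ 0} := isOpen_ne_fun continuous_snd continuous_const
    exact h1.inter h2

end FPM
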