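import Pool.Agent.Helper427.FPM.Defs
import Pool.Agent.Helper427.FPM.P_nrm_inc

open scoped Quaternion ContDiff
open MeasureTheory

namespace FPM



theorem E_alg_diff (f : M → ℝ) (hf : Sm f) (x : M) :
    DifferentiableAt ℝ (fun y => f (nrm y)) (inc x) := by
  have h1 : ContDiffAt ℝ ∞ (fun y => f (nrm y)) (inc x) :=
    hf.contDiffAt (nrm_inc.2.mem_nhds (nrm_inc.1 x).2)
  exact h1.differentiableAt (by simp)

theorem E_alg (i : Fin 6) : (∀ c : ℝ, E i (fun _ => c) = fun _ => 0) ∧
    (∀ f g : M → ℝ, Sm f → Sm g → E i (fun x => f x + g x) = fun x => E i f x + E i g x) ∧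
    (∀ f g : M → ℝ, Sm f → Sm g →
      E i (fun x => f x * g x) = fun x => f x * E i g x + g x * E i f x) := by
  refine ⟨?_, ?_, ?_⟩
  · intro c
    funext x
    unfold E
    rw [fderiv_fun_const]
    rfl
  · intro f g hf hg
    funext x
    unfold E
    rw [fderiv_fun_add (E_alg_diff f hf x) (E_alg_diff g hg x)]
    rfl
  · intro f g hf hg
    funext x
    unfold E
    rw [fderiv_fun_mul (E_alg_diff f hf x) (E_alg_diff g hg x)]
    simp only [(nrm_inc.1 x).1]
    rfl

end FPM
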