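import Pool.Agent.Helper427.FPM.Defs

open scoped Quaternion ContDiff
open MeasureTheory

namespace FPM



theorem norm_sph (a : Sph) : ‖(a : Q)‖ = 1 := mem_sphere_zero_iff_norm.mp a.2

theorem nsub (a b : Sph) : ‖(a : Q) - (b : Q)‖ ^ 2 = 2 - 2 * ip a b := by
  have h := norm_sub_sq_real (a : Q) (b : Q)
  rw [norm_sph, norm_sph] at h
  unfold ip
  linarith

theorem ip_props : (∀ a b, |ip a b| ≤ 1) ∧ (∀ a b, ip a b = ip b a) ∧
    (∀ a b : Sph, ‖(a : Q) - (b : Q)‖ ^ 2 = 2 - 2 * ip a b) ∧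
    (∀ g a b : Sph, ip (g * a) (g * b) = ip a b) := by
  refine ⟨fun a b => ?_, fun a b => ?_, nsub, fun g a b => ?_⟩
  · have h := abs_real_inner_le_norm (a : Q) (b : Q)
    rw [norm_sph, norm_sph, one_mul] at h
    exact h
  · unfold ip
    exact real_inner_comm _ _
  · have h1 := nsub (g * a) (g * b)
    have h2 := nsub a b
    have h3 : ‖((g * a : Sph) : Q) - ((g * b : Sph) : Q)‖ = ‖(a : Q) - (b : Q)‖ := by
      have e1 : ((g * a : Sph) : Q) = (g : Q) * (a : Q) := rfl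
      have e2 : ((g * b : Sph) : Q) = (g : Q) * (b : Q) := rfl
      rw [e1, e2, ← mul_sub, norm_mul, norm_sph, one_mul]
    rw [h3] at h1
    linarith

end FPM
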