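import Pool.Agent.Helper427.FPM.Defs
import Pool.Agent.Helper427.FPM.P_ip_props

open scoped Quaternion ContDiff
open MeasureTheory

namespace FPM



theorem dq_comp (a b : Sph) :
    dq 0 a b = -(a : Q).imI * (b : Q).re + (a : Q).re * (b : Q).imI - (a : Q).imK * (b : Q).imJ
      + (a : Q).imJ * (b : Q).imK ∧
    dq 1 a b = -(a : Q).imJ * (b : Q).re + (a : Q).imK * (b : Q).imI + (a : Q).re * (b : Q).imJ
      - (a : Q).imI * (b : Q).imK ∧
    dq 2 a b = -(a : Q).imK * (b : Q).re - (a : Q).imJ * (b : Q).imI + (a : Q).imI * (b : Q).imJ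
      + (a : Q).re * (b : Q).imK ∧
    ip a b = (a : Q).re * (b : Q).re + (a : Q).imI * (b : Q).imI + (a : Q).imJ * (b : Q).imJ
      + (a : Q).imK * (b : Q).imK := by
  refine ⟨?_, ?_, ?_, ?_⟩
  · simp [dq, qu, Quaternion.inner_def, Quaternion.re_mul, Quaternion.imI_mul,
      Quaternion.imJ_mul, Quaternion.imK_mul]
  · simp [dq, qu, Quaternion.inner_def, Quaternion.re_mul, Quaternion.imI_mul,
      Quaternion.imJ_mul, Quaternion.imK_mul]
  · simp [dq, qu, Quaternion.inner_def, Quaternion.re_mul, Quaternion.imI_mul,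
      Quaternion.imJ_mul, Quaternion.imK_mul]
  · simp [ip, Quaternion.inner_def, Quaternion.re_mul, Quaternion.imI_mul,
      Quaternion.imJ_mul, Quaternion.imK_mul]

theorem sph_sq (a : Sph) : (a : Q).re ^ 2 + (a : Q).imI ^ 2 + (a : Q).imJ ^ 2 +
    (a : Q).imK ^ 2 = 1 := by
  have h1 : ‖(a : Q)‖ = 1 := mem_sphere_zero_iff_norm.1 a.2
  have h2 := Quaternion.normSq_eq_norm_mul_self (a : Q)
  rw [h1, mul_one, Quaternion.normSq_def'] at h2
  exact h2

theorem dq_props : (∀ i a b, dq i b a = - dq i a b) ∧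
    (∀ i (a b : Sph), |dq i a b| ≤ ‖(a : Q) - (b : Q)‖) ∧
    (∀ a b, ∑ i, dq i a b ^ 2 = 1 - ip a b ^ 2) := by
  have h3 : ∀ a b, ∑ i, dq i a b ^ 2 = 1 - ip a b ^ 2 := by
    intro a b
    obtain ⟨e0, e1, e2, e3⟩ := dq_comp a b
    have ha := sph_sq a
    have hb := sph_sq b
    rw [Fin.sum_univ_three, e0, e1, e2, e3]
    linear_combination ((b : Q).re ^ 2 + (b : Q).imI ^ 2 + (b : Q).imJ ^ 2 +
      (b : Q).imK ^ 2) * ha + hb
  refine ⟨?_, ?_, h3⟩
  · intro i a b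
    obtain ⟨e0, e1, e2, _⟩ := dq_comp a b
    obtain ⟨f0, f1, f2, _⟩ := dq_comp b a
    fin_cases i
    · show dq 0 b a = - dq 0 a b
      rw [e0, f0]; ring
    · show dq 1 b a = - dq 1 a b
      rw [e1, f1]; ring
    · show dq 2 b a = - dq 2 a b
      rw [e2, f2]; ring
  · intro i a b
    have h4 : dq i a b ^ 2 ≤ 1 - ip a b ^ 2 := by
      rw [← h3 a b]
      exact Finset.single_le_sum (f := fun i => dq i a b ^ 2) (fun _ _ => sq_nonneg _)
        (Finset.mem_univ i)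
    have h5 := ip_props.2.2.1 a b
    have h6 := abs_le.1 (ip_props.1 a b)
    have h7 : dq i a b ^ 2 ≤ ‖(a : Q) - (b : Q)‖ ^ 2 := by
      rw [h5]
      nlinarith [sq_nonneg (1 - ip a b), h6.1, h6.2]
    exact abs_le_of_sq_le_sq h7 (norm_nonneg _)

end FPM
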