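import Pool.Agent.Helper427.FPM.Defs
import Pool.Agent.Helper427.FPM.P_nrm_inc

open scoped Quaternion ContDiff
open MeasureTheory

namespace FPM



/-- one-parameter subgroups -/
noncomputable def gq (j : Fin 3) (t : ℝ) : Q := Real.cos t • (1 : Q) + Real.sin t • qu j

theorem gq_norm (j : Fin 3) (t : ℝ) : ‖gq j t‖ = 1 := by
  have h : Quaternion.normSq (gq j t) = 1 := by
    have hcs := Real.cos_sq_add_sin_sq t
    have e1 : (gq j t).re = Real.cos t * 1 + Real.sin t * (qu j).re := rfl
    have e2 : (gq j t).imI = Real.cos t * 0 + Real.sin t * (qu j).imI := rfl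
    have e3 : (gq j t).imJ = Real.cos t * 0 + Real.sin t * (qu j).imJ := rfl
    have e4 : (gq j t).imK = Real.cos t * 0 + Real.sin t * (qu j).imK := rfl
    rw [Quaternion.normSq_def', e1, e2, e3, e4]
    fin_cases j
    · simp [qu]
    · simp [qu]
    · simp [qu]
  rw [Quaternion.normSq_eq_norm_mul_self] at h
  have h0 := norm_nonneg (gq j t)
  nlinarith

theorem qu_mul_self (j : Fin 3) : qu j * qu j = -(1 : Q) := by
  have e1 := Quaternion.re_mul (qu j) (qu j)
  have e2 := Quaternion.imI_mul (qu j) (qu j)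
  have e3 := Quaternion.imJ_mul (qu j) (qu j)
  have e4 := Quaternion.imK_mul (qu j) (qu j)
  ext
  · rw [e1]; fin_cases j <;> simp [qu]
  · rw [e2]; fin_cases j <;> simp [qu]
  · rw [e3]; fin_cases j <;> simp [qu]
  · rw [e4]; fin_cases j <;> simp [qu]

theorem gq_zero (j : Fin 3) : gq j 0 = 1 := by simp [gq]

theorem gq_hasDerivAt (j : Fin 3) (t : ℝ) : HasDerivAt (gq j) (qu j * gq j t) t := by
  have h1 : HasDerivAt (fun t : ℝ => Real.cos t • (1 : Q)) ((-Real.sin t) • (1 : Q)) t :=
    (Real.hasDerivAt_cos t).smul_const _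
  have h2 : HasDerivAt (fun t : ℝ => Real.sin t • qu j) (Real.cos t • qu j) t :=
    (Real.hasDerivAt_sin t).smul_const _
  have h3 := h1.add h2
  have e : (-Real.sin t) • (1 : Q) + Real.cos t • qu j = qu j * gq j t := by
    unfold gq
    rw [mul_add, mul_smul_comm, mul_smul_comm, qu_mul_self, mul_one, smul_neg, neg_smul]
    abel
  rw [← e]
  exact h3

theorem gq_continuous (j : Fin 3) : Continuous (gq j) := by
  unfold gq
  fun_prop

/-- the one-parameter subgroup in the sphere -/
noncomputable def gs (j : Fin 3) (t : ℝ) : Sph :=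
  ⟨gq j t, by rw [mem_sphere_zero_iff_norm]; exact gq_norm j t⟩

theorem gs_continuous (j : Fin 3) : Continuous (gs j) :=
  Continuous.subtype_mk (gq_continuous j) _

theorem gs_zero (j : Fin 3) : gs j 0 = 1 := by
  apply Subtype.ext
  show gq j 0 = 1
  exact gq_zero j

theorem chain_aux (f : M → ℝ) (hf : Sm f) (c : ℝ → M) (t : ℝ) (v : Q × Q)
    (hc : HasDerivAt (fun s => inc (c s)) v t) :
    HasDerivAt (fun s => f (c s)) (fderiv ℝ (fun y => f (nrm y)) (inc (c t)) v) t := by
  obtain ⟨h1, h2⟩ := nrm_inc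
  have hd : HasFDerivAt (fun y => f (nrm y)) (fderiv ℝ (fun y => f (nrm y)) (inc (c t)))
      (inc (c t)) := by
    have h3 : ContDiffAt ℝ ∞ (fun y => f (nrm y)) (inc (c t)) :=
      ContDiffOn.contDiffAt hf (h2.mem_nhds (h1 (c t)).2)
    exact (h3.differentiableAt (by simp)).hasFDerivAt
  have h4 := hd.comp_hasDerivAt t hc
  have e : (fun s => f (c s)) = (fun y => f (nrm y)) ∘ (fun s => inc (c s)) := by
    funext s
    simp only [Function.comp, (h1 (c s)).1]
  rw [e]
  exact h4

theorem flow_left (j : Fin 3) : ∃ g : ℝ → M, Continuous g ∧ g 0 = 1 ∧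
    ∀ f, Sm f → ∀ x t, HasDerivAt (fun s => f (g s * x))
      (fderiv ℝ (fun y => f (nrm y)) (inc (g t * x)) (qu j * (inc (g t * x)).1, (0 : Q))) t := by
  refine ⟨fun t => (gs j t, 1), ?_, ?_, ?_⟩
  · exact (gs_continuous j).prodMk continuous_const
  · show (gs j 0, (1 : Sph)) = 1
    rw [gs_zero]
    rfl
  · intro f hf x t
    apply chain_aux f hf (fun s => (gs j s, (1 : Sph)) * x) t
    have e : (fun s => inc ((gs j s, (1 : Sph)) * x)) = fun s => (gq j s * (x.1 : Q), (x.2 : Q)) := by
      funext s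
      apply Prod.ext
      · rfl
      · show ((1 : Sph) * x.2 : Sph).1 = (x.2 : Q)
        rw [one_mul]
    have h1 : HasDerivAt (fun s => gq j s * (x.1 : Q)) (qu j * gq j t * (x.1 : Q)) t :=
      (gq_hasDerivAt j t).mul_const _
    have h2 : HasDerivAt (fun _ : ℝ => (x.2 : Q)) 0 t := hasDerivAt_const _ _
    rw [e]
    have h3 := h1.prodMk h2
    rw [mul_assoc] at h3
    exact h3

theorem flow_right (j : Fin 3) : ∃ g : ℝ → M, Continuous g ∧ g 0 = 1 ∧
    ∀ f, Sm f → ∀ x t, HasDerivAt (fun s => f (g s * x))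
      (fderiv ℝ (fun y => f (nrm y)) (inc (g t * x)) ((0 : Q), qu j * (inc (g t * x)).2)) t := by
  refine ⟨fun t => (1, gs j t), ?_, ?_, ?_⟩
  · exact continuous_const.prodMk (gs_continuous j)
  · show ((1 : Sph), gs j 0) = 1
    rw [gs_zero]
    rfl
  · intro f hf x t
    apply chain_aux f hf (fun s => ((1 : Sph), gs j s) * x) t
    have e : (fun s => inc (((1 : Sph), gs j s) * x)) = fun s => ((x.1 : Q), gq j s * (x.2 : Q)) := by
      funext s
      apply Prod.ext
      · show ((1 : Sph) * x.1 : Sph).1 = (x.1 : Q)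
        rw [one_mul]
      · rfl
    have h1 : HasDerivAt (fun s => gq j s * (x.2 : Q)) (qu j * gq j t * (x.2 : Q)) t :=
      (gq_hasDerivAt j t).mul_const _
    have h2 : HasDerivAt (fun _ : ℝ => (x.1 : Q)) 0 t := hasDerivAt_const _ _
    rw [e]
    have h3 := h2.prodMk h1
    rw [mul_assoc] at h3
    exact h3

/-- the flow of the `i`-th field is left translation by a one-parameter subgroup -/
theorem flow (i : Fin 6) : ∃ g : ℝ → M, Continuous g ∧ g 0 = 1 ∧
    ∀ f, Sm f → ∀ x t, HasDerivAt (fun s => f (g s * x)) (E i f (g t * x)) t := by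
  fin_cases i
  · exact flow_left 0
  · exact flow_left 1
  · exact flow_left 2
  · exact flow_right 0
  · exact flow_right 1
  · exact flow_right 2

end FPM
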