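import Pool.Agent.Helper427.FPM.Defs

open scoped Quaternion ContDiff
open MeasureTheory

namespace FPM



theorem nrm_smooth : ContDiffOn ℝ ∞ (fun y : Q × Q => inc (nrm y)) Om := by
  have hn1 : ContDiffOn ℝ ∞ (fun y : Q × Q => (‖y.1‖⁻¹ : ℝ)) Om :=
    (contDiff_fst.contDiffOn.norm ℝ (fun x hx => hx.1)).inv
      (fun x hx => norm_ne_zero_iff.2 hx.1)
  have hn2 : ContDiffOn ℝ ∞ (fun y : Q × Q => (‖y.2‖⁻¹ : ℝ)) Om :=
    (contDiff_snd.contDiffOn.norm ℝ (fun x hx => hx.2)).inv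
      (fun x hx => norm_ne_zero_iff.2 hx.2)
  have hs1 : ContDiffOn ℝ ∞ (fun y : Q × Q => (‖y.1‖⁻¹ : ℝ) • y.1) Om :=
    hn1.smul contDiff_fst.contDiffOn
  have hs2 : ContDiffOn ℝ ∞ (fun y : Q × Q => (‖y.2‖⁻¹ : ℝ) • y.2) Om :=
    hn2.smul contDiff_snd.contDiffOn
  refine (hs1.prodMk hs2).congr fun y hy => ?_
  simp only [inc, nrm, nz, dif_neg hy.1, dif_neg hy.2]

end FPM
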