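import Pool.Agent.Helper427.FPM.Defs
import Pool.Agent.Helper427.FPM.P_nrm_smooth

open scoped Quaternion ContDiff
open MeasureTheory

namespace FPM

theorem sm_ambient (F : Q × Q → ℝ) (hF : ContDiff ℝ ∞ F) : Sm (fun x => F (inc x)) := by
  unfold Sm
  exact hF.comp_contDiffOn nrm_smooth

end FPM
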