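import Pool.Agent.Helper427.FPM.Defs
import Pool.Agent.Helper427.FPM.P_sm_ambient
import Pool.Agent.Helper427.FPM.P_ip_props

open scoped Quaternion ContDiff
open MeasureTheory

namespace FPM



theorem kk_props (a b : ℕ) : (∀ x z, 0 ≤ kk a b x z) ∧ (∀ x z, kk a b x z = kk a b z x) ∧
    Continuous (fun p : M × M => kk a b p.1 p.2) ∧ (∀ x, Sm (kk a b x)) := by
  have hpos : ∀ s t : Sph, 0 ≤ 1 + ip s t := by
    intro s t
    have := (abs_le.mp (ip_props.1 s t)).1
    linarith
  refine ⟨?_, ?_, ?_, ?_⟩
  · intro x z
    exact mul_nonneg (pow_nonneg (hpos _ _) _) (pow_nonneg (hpos _ _) _)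
  · intro x z
    simp only [kk]
    rw [ip_props.2.1 x.1 z.1, ip_props.2.1 x.2 z.2]
  · have h1 : Continuous (fun p : M × M => ip p.1.1 p.2.1) := by
      unfold ip
      exact Continuous.inner
        (continuous_subtype_val.comp (continuous_fst.comp continuous_fst))
        (continuous_subtype_val.comp (continuous_fst.comp continuous_snd))
    have h2 : Continuous (fun p : M × M => ip p.1.2 p.2.2) := by
      unfold ip
      exact Continuous.inner
        (continuous_subtype_val.comp (continuous_snd.comp continuous_fst))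
        (continuous_subtype_val.comp (continuous_snd.comp continuous_snd))
    exact ((continuous_const.add h1).pow a).mul ((continuous_const.add h2).pow b)
  · intro x
    have hF : ContDiff ℝ ∞ (fun y : Q × Q => (1 + inner ℝ (x.1 : Q) y.1) ^ a *
        (1 + inner ℝ (x.2 : Q) y.2) ^ b) := by
      have h1 : ContDiff ℝ ∞ (fun y : Q × Q => (inner ℝ (x.1 : Q) y.1 : ℝ)) :=
        contDiff_const.inner ℝ contDiff_fst
      have h2 : ContDiff ℝ ∞ (fun y : Q × Q => (inner ℝ (x.2 : Q) y.2 : ℝ)) :=
        contDiff_const.inner ℝ contDiff_snd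
      exact ((contDiff_const.add h1).pow a).mul ((contDiff_const.add h2).pow b)
    exact sm_ambient _ hF

end FPM
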