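import Pool.Agent.Helper427.FPM.Defs
import Pool.Agent.Helper427.FPM.P_nrm_inc
import Pool.Agent.Helper427.FPM.P_flow
import Pool.Agent.Helper427.FPM.P_dq_props
import Pool.Agent.Helper427.FPM.P_kk_props

open scoped Quaternion ContDiff
open MeasureTheory

namespace FPM



theorem dkr_deriv_nz_coe (a : Sph) : nz (a : Q) = a := congrArg Prod.fst (nrm_inc.1 ((a, a) : M)).1

theorem ip_nz (y : Q) (hy : y ≠ 0) (w : Sph) : ip (nz y) w = ‖y‖⁻¹ * inner ℝ y (w : Q) := by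
  unfold ip nz
  rw [dif_neg hy]
  exact real_inner_smul_left _ _ _

theorem hder (a w : Sph) (v : Q) (hv : inner ℝ (a : Q) v = 0) :
    HasDerivAt (fun s : ℝ => ip (nz ((a : Q) + s • v)) w) (inner ℝ v (w : Q)) 0 := by
  have ha : ‖(a : Q)‖ = 1 := mem_sphere_zero_iff_norm.1 a.2
  have hn : ∀ s : ℝ, ‖(a : Q) + s • v‖ ^ 2 = 1 + s ^ 2 * ‖v‖ ^ 2 := by
    intro s
    rw [norm_add_sq_real, inner_smul_right, hv, norm_smul, ha, mul_pow, Real.norm_eq_abs, sq_abs]
    ring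
  have hf : (fun s : ℝ => ip (nz ((a : Q) + s • v)) w) = fun s =>
      (Real.sqrt (1 + s ^ 2 * ‖v‖ ^ 2))⁻¹ * (inner ℝ (a : Q) (w : Q) + s * inner ℝ v (w : Q)) := by
    funext s
    have hne : (a : Q) + s • v ≠ 0 := by
      intro h
      have h1 := hn s
      rw [h, norm_zero] at h1
      nlinarith [sq_nonneg (s * ‖v‖)]
    rw [ip_nz _ hne, inner_add_left, real_inner_smul_left, ← hn s, Real.sqrt_sq (norm_nonneg _)]
  rw [hf]
  have h1 : HasDerivAt (fun s : ℝ => 1 + s ^ 2 * ‖v‖ ^ 2) 0 0 := by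
    have := ((hasDerivAt_pow 2 (0 : ℝ)).mul_const (‖v‖ ^ 2)).const_add 1
    simpa using this
  have h2 : HasDerivAt (fun s : ℝ => Real.sqrt (1 + s ^ 2 * ‖v‖ ^ 2)) 0 0 := by
    have := h1.sqrt (by norm_num)
    simpa using this
  have h3 : HasDerivAt (fun s : ℝ => (Real.sqrt (1 + s ^ 2 * ‖v‖ ^ 2))⁻¹) 0 0 := by
    have := h2.fun_inv (by norm_num)
    simpa using this
  have h4 : HasDerivAt (fun s : ℝ => inner ℝ (a : Q) (w : Q) + s * inner ℝ v (w : Q))
      (inner ℝ v (w : Q)) 0 := by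
    have := ((hasDerivAt_id (0 : ℝ)).mul_const (inner ℝ v (w : Q))).const_add
      (inner ℝ (a : Q) (w : Q))
    simpa using this
  have h5 := h3.fun_mul h4
  simpa using h5

theorem kr_diffAt (m : ℕ) (x z : M) :
    DifferentiableAt ℝ (fun y => kr m (nrm y) z) (inc x) := by
  have h := (kk_props m m).2.2.2 z
  have h1 : (fun y => kr m (nrm y) z) = fun y => kk m m z (nrm y) := by
    funext y
    exact (kk_props m m).2.1 _ _
  rw [h1]
  have h2 : ContDiffAt ℝ ∞ (fun y => kk m m z (nrm y)) (inc x) :=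
    h.contDiffAt (nrm_inc.2.mem_nhds (nrm_inc.1 x).2)
  exact h2.differentiableAt (by simp)

theorem orth (j : Fin 3) (a : Sph) : inner ℝ (a : Q) (qu j * (a : Q)) = 0 := by
  rw [real_inner_comm]
  have := dq_props.1 j a a
  unfold dq at this
  linarith

theorem dkr_L1 (j : Fin 3) (m : ℕ) (x z : M) :
    fderiv ℝ (fun y => kr m (nrm y) z) (inc x) (qu j * (inc x).1, (0 : Q)) =
      m * kk (m - 1) m x z * dq j x.1 z.1 := by
  have h1 := (kr_diffAt m x z).hasFDerivAt.hasLineDerivAt (qu j * (inc x).1, (0 : Q))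
  have hfun : (fun t : ℝ => kr m (nrm (inc x + t • (qu j * (inc x).1, (0 : Q)))) z) =
      fun s : ℝ => (1 + ip (nz ((x.1 : Q) + s • (qu j * (x.1 : Q)))) z.1) ^ m *
        (1 + ip x.2 z.2) ^ m := by
    funext s
    show (1 + ip (nz ((x.1 : Q) + s • (qu j * (x.1 : Q)))) z.1) ^ m *
      (1 + ip (nz ((x.2 : Q) + s • (0 : Q))) z.2) ^ m = _
    rw [smul_zero, add_zero, dkr_deriv_nz_coe]
  have h2 : HasDerivAt (fun s : ℝ => (1 + ip (nz ((x.1 : Q) + s • (qu j * (x.1 : Q)))) z.1) ^ m *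
        (1 + ip x.2 z.2) ^ m)
      ((m * (1 + ip x.1 z.1) ^ (m - 1) * dq j x.1 z.1) * (1 + ip x.2 z.2) ^ m) 0 := by
    have h3 := (((hder x.1 z.1 _ (orth j x.1)).const_add 1).fun_pow m).mul_const
      ((1 + ip x.2 z.2) ^ m)
    simp only [zero_smul, add_zero, dkr_deriv_nz_coe] at h3
    exact h3
  have h1' : HasDerivAt (fun t : ℝ => kr m (nrm (inc x + t • (qu j * (inc x).1, (0 : Q)))) z)
    (fderiv ℝ (fun y => kr m (nrm y) z) (inc x) (qu j * (inc x).1, (0 : Q))) 0 := h1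
  rw [hfun] at h1'
  rw [h1'.unique h2]
  unfold kk
  ring

theorem dkr_L2 (j : Fin 3) (m : ℕ) (x z : M) :
    fderiv ℝ (fun y => kr m (nrm y) z) (inc x) ((0 : Q), qu j * (inc x).2) =
      m * kk m (m - 1) x z * dq j x.2 z.2 := by
  have h1 := (kr_diffAt m x z).hasFDerivAt.hasLineDerivAt ((0 : Q), qu j * (inc x).2)
  have hfun : (fun t : ℝ => kr m (nrm (inc x + t • ((0 : Q), qu j * (inc x).2))) z) =
      fun s : ℝ => (1 + ip x.1 z.1) ^ m *
        (1 + ip (nz ((x.2 : Q) + s • (qu j * (x.2 : Q)))) z.2) ^ m := by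
    funext s
    show (1 + ip (nz ((x.1 : Q) + s • (0 : Q))) z.1) ^ m *
      (1 + ip (nz ((x.2 : Q) + s • (qu j * (x.2 : Q)))) z.2) ^ m = _
    rw [smul_zero, add_zero, dkr_deriv_nz_coe]
  have h2 : HasDerivAt (fun s : ℝ => (1 + ip x.1 z.1) ^ m *
        (1 + ip (nz ((x.2 : Q) + s • (qu j * (x.2 : Q)))) z.2) ^ m)
      ((1 + ip x.1 z.1) ^ m * (m * (1 + ip x.2 z.2) ^ (m - 1) * dq j x.2 z.2)) 0 := by
    have h3 := (((hder x.2 z.2 _ (orth j x.2)).const_add 1).fun_pow m).const_mul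
      ((1 + ip x.1 z.1) ^ m)
    simp only [zero_smul, add_zero, dkr_deriv_nz_coe] at h3
    exact h3
  have h1' : HasDerivAt (fun t : ℝ => kr m (nrm (inc x + t • ((0 : Q), qu j * (inc x).2))) z)
    (fderiv ℝ (fun y => kr m (nrm y) z) (inc x) ((0 : Q), qu j * (inc x).2)) 0 := h1
  rw [hfun] at h1'
  rw [h1'.unique h2]
  unfold kk
  ring

theorem dkr_first (i : Fin 6) (m : ℕ) (x z : M) :
    E i (fun y => kr m y z) x = dkr i m x z := by
  fin_cases i
  · exact dkr_L1 0 m x z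
  · exact dkr_L1 1 m x z
  · exact dkr_L1 2 m x z
  · exact dkr_L2 0 m x z
  · exact dkr_L2 1 m x z
  · exact dkr_L2 2 m x z

theorem dkr_anti (i : Fin 6) (m : ℕ) (x z : M) : dkr i m z x = - dkr i m x z := by
  have e1 : ∀ j, (m : ℝ) * kk (m - 1) m z x * dq j z.1 x.1 =
      -((m : ℝ) * kk (m - 1) m x z * dq j x.1 z.1) := by
    intro j
    rw [(kk_props (m - 1) m).2.1 z x, dq_props.1 j x.1 z.1]
    ring
  have e2 : ∀ j, (m : ℝ) * kk m (m - 1) z x * dq j z.2 x.2 =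
      -((m : ℝ) * kk m (m - 1) x z * dq j x.2 z.2) := by
    intro j
    rw [(kk_props m (m - 1)).2.1 z x, dq_props.1 j x.2 z.2]
    ring
  fin_cases i
  · exact e1 0
  · exact e1 1
  · exact e1 2
  · exact e2 0
  · exact e2 1
  · exact e2 2

/-- `dkr` is the derivative of the kernel -/
theorem dkr_deriv (i : Fin 6) (m : ℕ) (hm : 1 ≤ m) (x z : M) :
    E i (fun y => kr m y z) x = dkr i m x z ∧ E i (fun y => kr m x y) z = - dkr i m x z := by
  refine ⟨dkr_first i m x z, ?_⟩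
  have h1 : (fun y => kr m x y) = fun y => kr m y x := by
    funext y
    exact (kk_props m m).2.1 _ _
  rw [h1, dkr_first, dkr_anti]

end FPM
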