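import Pool.Agent.Helper427.FPM.Defs

open scoped Quaternion ContDiff
open MeasureTheory

namespace FPM



theorem sm_basic : (∀ c : ℝ, Sm (fun _ => c)) ∧
    (∀ f g : M → ℝ, Sm f → Sm g → Sm (fun x => f x + g x)) ∧
    (∀ f g : M → ℝ, Sm f → Sm g → Sm (fun x => f x * g x)) := by
  refine ⟨fun c => ?_, fun f g hf hg => ?_, fun f g hf hg => ?_⟩
  · exact contDiffOn_const
  · exact ContDiffOn.add hf hg
  · exact ContDiffOn.mul hf hg

end FPM
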