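import Pool.Agent.Helper427.FPM.Defs
import Pool.Agent.Helper427.FPM.P_sm_basic
import Pool.Agent.Helper427.FPM.P_sm_ambient

open scoped Quaternion ContDiff
open MeasureTheory

namespace FPM



/-- finite rank kernels -/
def FRk (K : M → M → ℝ) : Prop := ∃ (ι : Type) (_ : Fintype ι) (P R : ι → M → ℝ),
  (∀ j, Sm (P j)) ∧ (∀ j, Sm (R j)) ∧ ∀ x z, K x z = ∑ j, P j x * R j z

theorem FRk_const (c : ℝ) : FRk (fun _ _ => c) := by
  refine ⟨Unit, inferInstance, fun _ _ => c, fun _ _ => 1, fun _ => sm_basic.1 c,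
    fun _ => sm_basic.1 1, fun x z => ?_⟩
  simp

theorem FRk_add {K L : M → M → ℝ} (hK : FRk K) (hL : FRk L) : FRk (fun x z => K x z + L x z) := by
  obtain ⟨ι, _, P, R, hP, hR, h⟩ := hK
  obtain ⟨κ, _, P', R', hP', hR', h'⟩ := hL
  refine ⟨ι ⊕ κ, inferInstance, Sum.elim P P', Sum.elim R R', ?_, ?_, fun x z => ?_⟩
  · rintro (j | j)
    · exact hP j
    · exact hP' j
  · rintro (j | j)
    · exact hR j
    · exact hR' j
  · beta_reduce
    rw [Fintype.sum_sum_type, h, h']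
    rfl

theorem FRk_mul {K L : M → M → ℝ} (hK : FRk K) (hL : FRk L) : FRk (fun x z => K x z * L x z) := by
  obtain ⟨ι, _, P, R, hP, hR, h⟩ := hK
  obtain ⟨κ, _, P', R', hP', hR', h'⟩ := hL
  refine ⟨ι × κ, inferInstance, fun j x => P j.1 x * P' j.2 x, fun j x => R j.1 x * R' j.2 x,
    fun j => sm_basic.2.2 _ _ (hP _) (hP' _), fun j => sm_basic.2.2 _ _ (hR _) (hR' _),
    fun x z => ?_⟩
  beta_reduce
  rw [h, h', Fintype.sum_mul_sum, Fintype.sum_prod_type]
  refine Finset.sum_congr rfl fun i _ => Finset.sum_congr rfl fun j _ => ?_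
  ring

theorem FRk_pow {K : M → M → ℝ} (hK : FRk K) (n : ℕ) : FRk (fun x z => K x z ^ n) := by
  induction n with
  | zero => simpa using FRk_const 1
  | succ n ih =>
    simp only [pow_succ]
    exact FRk_mul ih hK

theorem FRk_ip1 : FRk (fun x z => ip x.1 z.1) := by
  refine ⟨Fin (Module.finrank ℝ Q), inferInstance,
    fun j x => inner ℝ (x.1 : Q) (stdOrthonormalBasis ℝ Q j),
    fun j x => inner ℝ (stdOrthonormalBasis ℝ Q j) (x.1 : Q), fun j => ?_, fun j => ?_,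
    fun x z => ?_⟩
  · exact sm_ambient (fun y => inner ℝ y.1 (stdOrthonormalBasis ℝ Q j))
      (contDiff_fst.inner ℝ contDiff_const)
  · exact sm_ambient (fun y => inner ℝ (stdOrthonormalBasis ℝ Q j) y.1)
      (contDiff_const.inner ℝ contDiff_fst)
  · exact ((stdOrthonormalBasis ℝ Q).sum_inner_mul_inner (x.1 : Q) (z.1 : Q)).symm

theorem FRk_ip2 : FRk (fun x z => ip x.2 z.2) := by
  refine ⟨Fin (Module.finrank ℝ Q), inferInstance,
    fun j x => inner ℝ (x.2 : Q) (stdOrthonormalBasis ℝ Q j),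
    fun j x => inner ℝ (stdOrthonormalBasis ℝ Q j) (x.2 : Q), fun j => ?_, fun j => ?_,
    fun x z => ?_⟩
  · exact sm_ambient (fun y => inner ℝ y.2 (stdOrthonormalBasis ℝ Q j))
      (contDiff_snd.inner ℝ contDiff_const)
  · exact sm_ambient (fun y => inner ℝ (stdOrthonormalBasis ℝ Q j) y.2)
      (contDiff_const.inner ℝ contDiff_snd)
  · exact ((stdOrthonormalBasis ℝ Q).sum_inner_mul_inner (x.2 : Q) (z.2 : Q)).symm

theorem finite_rank (m : ℕ) : ∃ (n : ℕ) (P R : Fin n → M → ℝ), (∀ j, Sm (P j)) ∧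
    (∀ j, Sm (R j)) ∧ ∀ x z, kr m x z = ∑ j, P j x * R j z := by
  have h : FRk (kr m) :=
    FRk_mul (FRk_pow (FRk_add (FRk_const 1) FRk_ip1) m)
      (FRk_pow (FRk_add (FRk_const 1) FRk_ip2) m)
  obtain ⟨ι, _, P, R, hP, hR, h⟩ := h
  refine ⟨Fintype.card ι, fun j => P ((Fintype.equivFin ι).symm j),
    fun j => R ((Fintype.equivFin ι).symm j), fun j => hP _, fun j => hR _, fun x z => ?_⟩
  rw [h, ← (Fintype.equivFin ι).symm.sum_comp]

end FPM
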