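import Pool.Agent.Helper427.FPM.Defs

open scoped Quaternion ContDiff
open MeasureTheory

namespace FPM



theorem mu_prob : IsProbabilityMeasure mu := by
  constructor
  have h := Measure.haarMeasure_self (G := M) (K₀ := ⊤)
  unfold mu
  simpa using h

end FPM
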