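import Pool.Agent.Helper427.FPM.Defs
import Pool.Agent.Helper427.FPM.P_nrm_inc

open scoped Quaternion ContDiff
open MeasureTheory

namespace FPM



theorem sm_cont (f : M → ℝ) (hf : Sm f) : Continuous f := by
  have h1 : ContinuousOn (fun x : Q × Q => f (nrm x)) Om := hf.continuousOn
  have h2 : Continuous inc := by
    unfold inc
    exact (continuous_subtype_val.comp continuous_fst).prodMk
      (continuous_subtype_val.comp continuous_snd)
  have h3 : f = fun x : M => (fun y : Q × Q => f (nrm y)) (inc x) := by
    funext x
    show f x = f (nrm (inc x))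
    rw [(nrm_inc.1 x).1]
  rw [h3]
  exact h1.comp_continuous h2 (fun x => (nrm_inc.1 x).2)

end FPM
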