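import Pool.Agent.Helper427.FPM.Defs
import Pool.Agent.Helper427.FPM.P_mu_prob
import Pool.Agent.Helper427.FPM.P_sm_basic
import Pool.Agent.Helper427.FPM.P_sm_cont
import Pool.Agent.Helper427.FPM.P_E_alg
import Pool.Agent.Helper427.FPM.P_dkr_deriv
import Pool.Agent.Helper427.FPM.P_finite_rank

open scoped Quaternion ContDiff
open MeasureTheory

namespace FPM



theorem E_sum (i : Fin 6) {n : ℕ} (P : Fin n → M → ℝ) (hP : ∀ j, Sm (P j)) (c : Fin n → ℝ)
    (s : Finset (Fin n)) : Sm (fun y => ∑ j ∈ s, c j * P j y) ∧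
      E i (fun y => ∑ j ∈ s, c j * P j y) = fun y => ∑ j ∈ s, c j * E i (P j) y := by
  classical
  obtain ⟨s1, s2, s3⟩ := sm_basic
  obtain ⟨a1, a2, a3⟩ := E_alg i
  induction s using Finset.induction_on with
  | empty =>
    simp only [Finset.sum_empty]
    exact ⟨s1 0, a1 0⟩
  | insert j s hj ih =>
    simp only [Finset.sum_insert hj]
    have h1 : Sm (fun y => c j * P j y) := s3 (fun _ => c j) (P j) (s1 _) (hP j)
    refine ⟨s2 _ _ h1 ih.1, ?_⟩
    rw [a2 _ _ h1 ih.1, ih.2]
    have h2 := a3 (fun _ => c j) (P j) (s1 _) (hP j)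
    rw [h2]
    funext y
    rw [a1 (c j)]
    ring

theorem E_Jm (i : Fin 6) (m : ℕ) (hm : 1 ≤ m) (f : M → ℝ) (hf : Continuous f) (x : M) :
    E i (Jm m f) x = (Im m)⁻¹ * ∫ z, dkr i m x z * f z ∂mu := by
  classical
  haveI := mu_prob
  obtain ⟨n, P, R, hP, hR, hk⟩ := finite_rank m
  have hint : ∀ j, Integrable (fun z => R j z * f z) mu := by
    intro j
    have hc : Continuous (fun z => R j z * f z) := (sm_cont _ (hR j)).mul hf
    exact hc.integrable_of_hasCompactSupport (HasCompactSupport.of_compactSpace _)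
  have hJ : Jm m f = fun y => ∑ j, ((Im m)⁻¹ * ∫ z, R j z * f z ∂mu) * P j y := by
    funext y
    unfold Jm
    have e1 : ∀ z, kr m y z * f z = ∑ j, P j y * (R j z * f z) := by
      intro z
      rw [hk, Finset.sum_mul]
      exact Finset.sum_congr rfl fun j _ => by ring
    simp_rw [e1]
    rw [integral_finsetSum _ (fun j _ => (hint j).const_mul _), Finset.mul_sum]
    refine Finset.sum_congr rfl fun j _ => ?_
    rw [integral_const_mul]
    ring
  rw [hJ, (E_sum i P hP _ Finset.univ).2]
  have hd : ∀ z, dkr i m x z = ∑ j, R j z * E i (P j) x := by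
    intro z
    rw [← (dkr_deriv i m hm x z).1]
    have e2 : (fun y => kr m y z) = fun y => ∑ j, R j z * P j y := by
      funext y
      rw [hk]
      exact Finset.sum_congr rfl fun j _ => by ring
    rw [e2, (E_sum i P hP _ Finset.univ).2]
  have e3 : ∀ z, dkr i m x z * f z = ∑ j, E i (P j) x * (R j z * f z) := by
    intro z
    rw [hd, Finset.sum_mul]
    exact Finset.sum_congr rfl fun j _ => by ring
  simp_rw [e3]
  rw [integral_finsetSum _ (fun j _ => (hint j).const_mul _), Finset.mul_sum]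
  refine Finset.sum_congr rfl fun j _ => ?_
  rw [integral_const_mul]
  ring

end FPM
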