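import Pool.Agent.Helper427.FPM.Defs
import Pool.Agent.Helper427.FPM.P_nrm_inc

open scoped Quaternion ContDiff
open MeasureTheory

namespace FPM



theorem E_hom_nz (c : ℝ) (hc : 0 < c) (q : Q) : nz (c • q) = nz q := by
  by_cases hq : q = 0
  · rw [hq, smul_zero]
  · have hcq : c • q ≠ 0 := smul_ne_zero hc.ne' hq
    unfold nz
    rw [dif_neg hcq, dif_neg hq]
    apply Subtype.ext
    show (‖c • q‖⁻¹ : ℝ) • (c • q) = (‖q‖⁻¹ : ℝ) • q
    rw [norm_smul, smul_smul, Real.norm_of_nonneg hc.le]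
    congr 1
    rw [mul_inv]
    field_simp

/-- the scaling map -/
noncomputable def E_hom_L (c d : ℝ) : Q × Q →L[ℝ] Q × Q :=
  (c • ContinuousLinearMap.fst ℝ Q Q).prod (d • ContinuousLinearMap.snd ℝ Q Q)

theorem E_hom_dir (c d : ℝ) (i : Fin 6) (y : Q × Q) :
    dir i (E_hom_L c d y) = E_hom_L c d (dir i y) := by
  fin_cases i <;> simp [dir, E_hom_L, mul_smul_comm]

/-- homogeneity of degree 0 of the radial extension -/
theorem E_hom (f : M → ℝ) (hf : Sm f) (i : Fin 6) (y : Q × Q) (hy : y ∈ Om) :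
    fderiv ℝ (fun y => f (nrm y)) y (dir i y) = E i f (nrm y) := by
  obtain ⟨h1, hO⟩ := nrm_inc
  have hc : 0 < ‖y.1‖⁻¹ := inv_pos.2 (norm_pos_iff.2 hy.1)
  have hd : 0 < ‖y.2‖⁻¹ := inv_pos.2 (norm_pos_iff.2 hy.2)
  have hL : inc (nrm y) = E_hom_L ‖y.1‖⁻¹ ‖y.2‖⁻¹ y := by
    simp only [inc, nrm, nz]
    rw [dif_neg hy.1, dif_neg hy.2]
    rfl
  have hF : (fun z => f (nrm z)) ∘ (E_hom_L ‖y.1‖⁻¹ ‖y.2‖⁻¹) = fun z => f (nrm z) := by
    funext z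
    show f (nrm (‖y.1‖⁻¹ • z.1, ‖y.2‖⁻¹ • z.2)) = f (nrm z)
    simp only [nrm]
    rw [E_hom_nz _ hc, E_hom_nz _ hd]
  have hdiff : DifferentiableAt ℝ (fun z => f (nrm z)) (E_hom_L ‖y.1‖⁻¹ ‖y.2‖⁻¹ y) := by
    rw [← hL]
    exact (hf.differentiableOn (by simp)).differentiableAt (hO.mem_nhds (h1 _).2)
  have hch := fderiv_comp y hdiff (E_hom_L ‖y.1‖⁻¹ ‖y.2‖⁻¹).differentiableAt
  rw [hF, ContinuousLinearMap.fderiv] at hch
  unfold E
  rw [hch, hL, ContinuousLinearMap.comp_apply, E_hom_dir]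

end FPM
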