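import Pool.Agent.Helper427.FPM.Defs
import Pool.Agent.Helper427.FPM.P_nrm_inc
import Pool.Agent.Helper427.FPM.P_E_hom

open scoped Quaternion ContDiff
open MeasureTheory

namespace FPM



theorem dir_contDiff (i : Fin 6) : ContDiff ℝ ∞ (dir i) := by
  have h1 : ∀ a : Q, ContDiff ℝ ∞ (fun y : Q × Q => (a * y.1, (0 : Q))) := fun a =>
    (contDiff_const.mul contDiff_fst).prodMk contDiff_const
  have h2 : ∀ a : Q, ContDiff ℝ ∞ (fun y : Q × Q => ((0 : Q), a * y.2)) := fun a =>
    contDiff_const.prodMk (contDiff_const.mul contDiff_snd)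
  fin_cases i
  · exact h1 (qu 0)
  · exact h1 (qu 1)
  · exact h1 (qu 2)
  · exact h2 (qu 0)
  · exact h2 (qu 1)
  · exact h2 (qu 2)

theorem E_sm (i : Fin 6) (f : M → ℝ) (hf : Sm f) : Sm (E i f) := by
  have h1 : ContDiffOn ℝ ∞ (fun y : Q × Q => fderiv ℝ (fun y => f (nrm y)) y (dir i y)) Om := by
    apply ContDiffOn.clm_apply
    · exact ContDiffOn.fderiv_of_isOpen hf nrm_inc.2 (by norm_num)
    · exact (dir_contDiff i).contDiffOn
  refine ContDiffOn.congr h1 ?_
  intro y hy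
  exact (E_hom f hf i y hy).symm

end FPM
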