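import Pool.Agent.Helper427.FPM.Defs
import Pool.Agent.Helper427.FPM.P_mu_prob
import Pool.Agent.Helper427.FPM.P_sm_cont
import Pool.Agent.Helper427.FPM.P_E_sm
import Pool.Agent.Helper427.FPM.P_flow

open scoped Quaternion ContDiff
open MeasureTheory

namespace FPM



theorem int_E (i : Fin 6) (f : M → ℝ) (hf : Sm f) : ∫ x, E i f x ∂mu = 0 := by
  obtain ⟨g, hgc, hg0, hflow⟩ := flow i
  have hprob : IsProbabilityMeasure mu := mu_prob
  have hinv : mu.IsMulLeftInvariant := by unfold mu; infer_instance
  have hfc : Continuous f := sm_cont f hf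
  have hEc : Continuous (E i f) := sm_cont _ (E_sm i f hf)
  obtain ⟨C, hC⟩ := (isCompact_univ (X := M)).exists_bound_of_continuousOn hEc.continuousOn
  obtain ⟨C2, hC2⟩ := (isCompact_univ (X := M)).exists_bound_of_continuousOn hfc.continuousOn
  have hmeas : ∀ (h : M → ℝ), Continuous h → AEStronglyMeasurable h mu := fun h hh =>
    hh.aestronglyMeasurable
  have hint : ∀ (h : M → ℝ), Continuous h → (∃ C, ∀ x, ‖h x‖ ≤ C) → Integrable h mu := by
    intro h hh ⟨C, hC⟩
    exact Integrable.of_bound (hmeas h hh) C (Filter.Eventually.of_forall hC)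
  have hder := (hasDerivAt_integral_of_dominated_loc_of_deriv_le (μ := mu)
    (F := fun t x => f (g t * x)) (F' := fun t x => E i f (g t * x)) (x₀ := (0 : ℝ))
    (s := Set.univ) (bound := fun _ => C) Filter.univ_mem
    (Filter.Eventually.of_forall fun t => hmeas _ (hfc.comp (continuous_const.mul continuous_id)))
    (hint _ (hfc.comp (continuous_const.mul continuous_id)) ⟨C2, fun x => hC2 _ (Set.mem_univ _)⟩)
    (hmeas _ (hEc.comp (continuous_const.mul continuous_id)))
    (Filter.Eventually.of_forall fun x t _ => hC _ (Set.mem_univ _))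
    (integrable_const C)
    (Filter.Eventually.of_forall fun x t _ => hflow f hf x t)).2
  have hconst : (fun t : ℝ => ∫ x, f (g t * x) ∂mu) = fun _ => ∫ x, f x ∂mu := by
    funext t
    exact integral_mul_left_eq_self f (g t)
  rw [hconst] at hder
  have h0 := hder.unique (hasDerivAt_const (0 : ℝ) (∫ x, f x ∂mu))
  simpa [hg0] using h0

end FPM
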