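import Pool.Agent.Helper427.FPM.Defs
import Pool.Agent.Helper427.FPM.P_mu_prob
import Pool.Agent.Helper427.FPM.P_sm_basic
import Pool.Agent.Helper427.FPM.P_sm_cont
import Pool.Agent.Helper427.FPM.P_E_sm
import Pool.Agent.Helper427.FPM.P_E_alg
import Pool.Agent.Helper427.FPM.P_int_E

open scoped Quaternion ContDiff
open MeasureTheory

namespace FPM



theorem ibp (i : Fin 6) (f g : M → ℝ) (hf : Sm f) (hg : Sm g) :
    ∫ x, f x * E i g x ∂mu = - ∫ x, E i f x * g x ∂mu := by
  have := mu_prob
  have hint : ∀ h : M → ℝ, Continuous h → Integrable h mu := by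
    intro h hh
    have h1 : IsCompact (Set.univ : Set M) := isCompact_univ
    obtain ⟨C, hC⟩ := h1.exists_bound_of_continuousOn hh.continuousOn
    refine Integrable.of_bound hh.aestronglyMeasurable C ?_
    exact Filter.Eventually.of_forall (fun x => hC x (Set.mem_univ x))
  have h0 := int_E i (fun x => f x * g x) (sm_basic.2.2 f g hf hg)
  rw [(E_alg i).2.2 f g hf hg] at h0
  have c1 : Continuous (fun x => f x * E i g x) :=
    (sm_cont f hf).mul (sm_cont _ (E_sm i g hg))
  have c2 : Continuous (fun x => g x * E i f x) :=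
    (sm_cont g hg).mul (sm_cont _ (E_sm i f hf))
  rw [integral_add (hint _ c1) (hint _ c2)] at h0
  have h3 : ∫ x, E i f x * g x ∂mu = ∫ x, g x * E i f x ∂mu := by
    congr 1
    funext x
    ring
  rw [h3]
  linarith

end FPM
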