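import Pool.Agent.Helper427.FPM.Defs
import Pool.Agent.Helper427.FPM.P_sm_cont
import Pool.Agent.Helper427.FPM.P_ibp
import Pool.Agent.Helper427.FPM.P_kk_props
import Pool.Agent.Helper427.FPM.P_dkr_deriv
import Pool.Agent.Helper427.FPM.P_E_Jm

open scoped Quaternion ContDiff
open MeasureTheory

namespace FPM



theorem E_Jm_comm (i : Fin 6) (m : ℕ) (hm : 1 ≤ m) (f : M → ℝ) (hf : Sm f) (x : M) :
    E i (Jm m f) x = Jm m (E i f) x := by
  rw [E_Jm i m hm f (sm_cont f hf) x]
  unfold Jm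
  congr 1
  have h1 : Sm (fun z => kr m x z) := (kk_props m m).2.2.2 x
  rw [ibp i (fun z => kr m x z) f h1 hf, ← integral_neg]
  congr 1
  funext z
  rw [(dkr_deriv i m hm x z).2]
  ring

end FPM
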