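import Pool.Agent.Helper427.FPM.Defs
import Pool.Agent.Helper427.FPM.P_nrm_inc
import Pool.Agent.Helper427.FPM.P_E_hom
import Pool.Agent.Helper427.FPM.P_E_sm

open scoped Quaternion ContDiff
open MeasureTheory

namespace FPM



theorem ec_lin (j : Fin 6) : ∃ A : Q × Q →L[ℝ] Q × Q, ∀ y, A y = dir j y := by
  fin_cases j
  · exact ⟨((ContinuousLinearMap.mul ℝ Q (qu 0)).comp
      (ContinuousLinearMap.fst ℝ Q Q)).prod 0, fun y => rfl⟩
  · exact ⟨((ContinuousLinearMap.mul ℝ Q (qu 1)).comp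
      (ContinuousLinearMap.fst ℝ Q Q)).prod 0, fun y => rfl⟩
  · exact ⟨((ContinuousLinearMap.mul ℝ Q (qu 2)).comp
      (ContinuousLinearMap.fst ℝ Q Q)).prod 0, fun y => rfl⟩
  · exact ⟨ContinuousLinearMap.prod 0 ((ContinuousLinearMap.mul ℝ Q (qu 0)).comp
      (ContinuousLinearMap.snd ℝ Q Q)), fun y => rfl⟩
  · exact ⟨ContinuousLinearMap.prod 0 ((ContinuousLinearMap.mul ℝ Q (qu 1)).comp
      (ContinuousLinearMap.snd ℝ Q Q)), fun y => rfl⟩
  · exact ⟨ContinuousLinearMap.prod 0 ((ContinuousLinearMap.mul ℝ Q (qu 2)).comp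
      (ContinuousLinearMap.snd ℝ Q Q)), fun y => rfl⟩

theorem ec_alg (i j : Fin 6) (p : Q × Q) :
    dir j (dir i p) - dir i (dir j p) = ∑ k, cst i j k • dir k p := by
  have c0 : (qu 0).re = 0 ∧ (qu 0).imI = 1 ∧ (qu 0).imJ = 0 ∧ (qu 0).imK = 0 :=
    ⟨rfl, rfl, rfl, rfl⟩
  have c1 : (qu 1).re = 0 ∧ (qu 1).imI = 0 ∧ (qu 1).imJ = 1 ∧ (qu 1).imK = 0 :=
    ⟨rfl, rfl, rfl, rfl⟩
  have c2 : (qu 2).re = 0 ∧ (qu 2).imI = 0 ∧ (qu 2).imJ = 0 ∧ (qu 2).imK = 1 :=
    ⟨rfl, rfl, rfl, rfl⟩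
  have a1 : qu 1 * qu 0 = -qu 2 := by
    ext <;> simp only [Quaternion.re_mul, Quaternion.imI_mul,
      Quaternion.imJ_mul, Quaternion.imK_mul, Quaternion.re_neg, Quaternion.imI_neg,
      Quaternion.imJ_neg, Quaternion.imK_neg, c0, c1, c2] <;> norm_num
  have a2 : qu 2 * qu 0 = qu 1 := by
    ext <;> simp only [Quaternion.re_mul, Quaternion.imI_mul,
      Quaternion.imJ_mul, Quaternion.imK_mul, Quaternion.re_neg, Quaternion.imI_neg,
      Quaternion.imJ_neg, Quaternion.imK_neg, c0, c1, c2] <;> norm_num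
  have a3 : qu 2 * qu 1 = -qu 0 := by
    ext <;> simp only [Quaternion.re_mul, Quaternion.imI_mul,
      Quaternion.imJ_mul, Quaternion.imK_mul, Quaternion.re_neg, Quaternion.imI_neg,
      Quaternion.imJ_neg, Quaternion.imK_neg, c0, c1, c2] <;> norm_num
  have b1 : qu 0 * qu 1 = qu 2 := by
    ext <;> simp only [Quaternion.re_mul, Quaternion.imI_mul,
      Quaternion.imJ_mul, Quaternion.imK_mul, Quaternion.re_neg, Quaternion.imI_neg,
      Quaternion.imJ_neg, Quaternion.imK_neg, c0, c1, c2] <;> norm_num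
  have b2 : qu 1 * qu 2 = qu 0 := by
    ext <;> simp only [Quaternion.re_mul, Quaternion.imI_mul,
      Quaternion.imJ_mul, Quaternion.imK_mul, Quaternion.re_neg, Quaternion.imI_neg,
      Quaternion.imJ_neg, Quaternion.imK_neg, c0, c1, c2] <;> norm_num
  have b3 : qu 0 * qu 2 = -qu 1 := by
    ext <;> simp only [Quaternion.re_mul, Quaternion.imI_mul,
      Quaternion.imJ_mul, Quaternion.imK_mul, Quaternion.re_neg, Quaternion.imI_neg,
      Quaternion.imJ_neg, Quaternion.imK_neg, c0, c1, c2] <;> norm_num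
  fin_cases i <;> fin_cases j <;>
    simp [dir, cst, Fin.sum_univ_succ, ← mul_assoc, a1, a2, a3, b1, b2, b3] <;> module

theorem E_comm (i j : Fin 6) (f : M → ℝ) (hf : Sm f) (x : M) :
    E i (E j f) x - E j (E i f) x = ∑ k, cst i j k * E k f x := by
  obtain ⟨hinc, hopen⟩ := nrm_inc
  have hp : inc x ∈ Om := (hinc x).2
  have hnb : Om ∈ nhds (inc x) := hopen.mem_nhds hp
  have hF : ContDiffAt ℝ ∞ (fun y => f (nrm y)) (inc x) := hf.contDiffAt hnb
  have hD : DifferentiableAt ℝ (fderiv ℝ (fun y => f (nrm y))) (inc x) :=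
    (hF.fderiv_right (m := 1) (by norm_cast)).differentiableAt (by norm_num)
  have key : ∀ i j : Fin 6, E i (E j f) x =
      fderiv ℝ (fun y => f (nrm y)) (inc x) (dir j (dir i (inc x))) +
      fderiv ℝ (fderiv ℝ (fun y => f (nrm y))) (inc x) (dir i (inc x)) (dir j (inc x)) := by
    intro i j
    obtain ⟨A, hA⟩ := ec_lin j
    have h1 : (fun y => E j f (nrm y)) =ᶠ[nhds (inc x)]
        fun y => fderiv ℝ (fun y => f (nrm y)) y (A y) := by
      filter_upwards [hnb] with y hy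
      rw [← E_hom f hf j y hy, hA]
    have h2 := hD.hasFDerivAt.clm_apply A.hasFDerivAt
    change fderiv ℝ (fun y => E j f (nrm y)) (inc x) (dir i (inc x)) = _
    rw [h1.fderiv_eq, h2.fderiv]
    simp only [ContinuousLinearMap.add_apply, ContinuousLinearMap.comp_apply,
      ContinuousLinearMap.flip_apply, hA]
  have hsymm := hF.isSymmSndFDerivAt (by
    rw [minSmoothness_of_isRCLikeNormedField]; exact WithTop.coe_le_coe.2 le_top)
  rw [key i j, key j i, hsymm.eq (dir i (inc x)) (dir j (inc x))]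
  have h3 : ∑ k, cst i j k * E k f x =
      fderiv ℝ (fun y => f (nrm y)) (inc x) (∑ k, cst i j k • dir k (inc x)) := by
    rw [map_sum]
    refine Finset.sum_congr rfl fun k _ => ?_
    rw [map_smul, smul_eq_mul]
    rfl
  rw [h3, ← ec_alg, map_sub]
  ring

end FPM
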