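import Pool.Agent.Helper427.FPM.Defs
import Pool.Agent.Helper427.FPM.P_nrm_inc
import Pool.Agent.Helper427.FPM.P_sm_ambient

open scoped Quaternion ContDiff
open MeasureTheory

namespace FPM



theorem j16284_nz {q : Q} (h : q ≠ 0) : ((nz q : Sph) : Q) = (‖q‖⁻¹ : ℝ) • q := by
  unfold nz; rw [dif_neg h]

theorem j16284_norm {a v : Q} (ha : ‖a‖ = 1) (hav : inner ℝ a v = 0) (t : ℝ) :
    ‖a + t • v‖ = √(1 + t ^ 2 * ‖v‖ ^ 2) := by
  have h1 : ‖a + t • v‖ ^ 2 = 1 + t ^ 2 * ‖v‖ ^ 2 := by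
    rw [norm_add_sq_real, real_inner_smul_right, hav, ha, norm_smul, mul_pow, Real.norm_eq_abs,
      sq_abs]
    ring
  rw [← h1, Real.sqrt_sq (norm_nonneg _)]

theorem j16284_ne {a v : Q} (ha : ‖a‖ = 1) (hav : inner ℝ a v = 0) (t : ℝ) :
    a + t • v ≠ 0 := by
  intro h
  have h1 := j16284_norm ha hav t
  rw [h, norm_zero] at h1
  have h2 : 0 < √(1 + t ^ 2 * ‖v‖ ^ 2) := Real.sqrt_pos.2 (by positivity)
  linarith

theorem j16284_deriv {a v : Q} (ha : ‖a‖ = 1) (hav : inner ℝ a v = 0) (w : Q) :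
    HasDerivAt (fun t : ℝ => inner ℝ w ((nz (a + t • v) : Sph) : Q)) (inner ℝ w v) 0 := by
  have e : (fun t : ℝ => inner ℝ w ((nz (a + t • v) : Sph) : Q)) =
      fun t : ℝ => (√(1 + t ^ 2 * ‖v‖ ^ 2))⁻¹ * (inner ℝ w a + t * inner ℝ w v) := by
    funext t
    rw [j16284_nz (j16284_ne ha hav t), j16284_norm ha hav t, real_inner_smul_right,
      inner_add_right, real_inner_smul_right]
  rw [e]
  have h1 : HasDerivAt (fun t : ℝ => 1 + t ^ 2 * ‖v‖ ^ 2) 0 0 := by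
    have := ((hasDerivAt_pow 2 (0:ℝ)).mul_const (‖v‖ ^ 2)).const_add 1
    simpa using this
  have h2 : HasDerivAt (fun t : ℝ => √(1 + t ^ 2 * ‖v‖ ^ 2)) 0 0 := by
    have := h1.sqrt (by simp)
    simpa using this
  have h3 : HasDerivAt (fun t : ℝ => (√(1 + t ^ 2 * ‖v‖ ^ 2))⁻¹) 0 0 := by
    have := h2.fun_inv (by simp)
    simpa using this
  have h4 : HasDerivAt (fun t : ℝ => inner ℝ w a + t * inner ℝ w v) (inner ℝ w v) 0 := by
    have := ((hasDerivAt_id (0:ℝ)).mul_const (inner ℝ w v)).const_add (inner ℝ w a)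
    simpa using this
  have h5 := h3.fun_mul h4
  simpa using h5

theorem j16284_inner (a b : Q) : inner ℝ a b =
    a.re * b.re + a.imI * b.imI + a.imJ * b.imJ + a.imK * b.imK := by
  rw [Quaternion.inner_def, Quaternion.re_mul, Quaternion.re_star, Quaternion.imI_star,
    Quaternion.imJ_star, Quaternion.imK_star]
  ring

theorem j16284_comp (a : Q) (i : Fin 3) : inner ℝ a (qu i * a) = 0 := by
  rw [j16284_inner, Quaternion.re_mul, Quaternion.imI_mul, Quaternion.imJ_mul, Quaternion.imK_mul]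
  have e0 : (qu 0).re = 0 ∧ (qu 0).imI = 1 ∧ (qu 0).imJ = 0 ∧ (qu 0).imK = 0 :=
    ⟨rfl, rfl, rfl, rfl⟩
  have e1 : (qu 1).re = 0 ∧ (qu 1).imI = 0 ∧ (qu 1).imJ = 1 ∧ (qu 1).imK = 0 :=
    ⟨rfl, rfl, rfl, rfl⟩
  have e2 : (qu 2).re = 0 ∧ (qu 2).imI = 0 ∧ (qu 2).imJ = 0 ∧ (qu 2).imK = 1 :=
    ⟨rfl, rfl, rfl, rfl⟩
  have h3 : i = 0 ∨ i = 1 ∨ i = 2 := by fin_cases i <;> simp
  rcases h3 with rfl | rfl | rfl
  · rw [e0.1, e0.2.1, e0.2.2.1, e0.2.2.2]; ring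
  · rw [e1.1, e1.2.1, e1.2.2.1, e1.2.2.2]; ring
  · rw [e2.1, e2.2.1, e2.2.2.1, e2.2.2.2]; ring

theorem j16284_delta (a : Q) (ha : ‖a‖ = 1) (i j : Fin 3) :
    inner ℝ (qu i * a) (qu j * a) = if i = j then (1 : ℝ) else 0 := by
  have h : a.re ^ 2 + a.imI ^ 2 + a.imJ ^ 2 + a.imK ^ 2 = 1 := by
    have h1 := Quaternion.normSq_eq_norm_mul_self a
    rw [Quaternion.normSq_def', ha] at h1
    linarith
  rw [j16284_inner]
  simp only [Quaternion.re_mul, Quaternion.imI_mul, Quaternion.imJ_mul, Quaternion.imK_mul]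
  have e0 : (qu 0).re = 0 ∧ (qu 0).imI = 1 ∧ (qu 0).imJ = 0 ∧ (qu 0).imK = 0 :=
    ⟨rfl, rfl, rfl, rfl⟩
  have e1 : (qu 1).re = 0 ∧ (qu 1).imI = 0 ∧ (qu 1).imJ = 1 ∧ (qu 1).imK = 0 :=
    ⟨rfl, rfl, rfl, rfl⟩
  have e2 : (qu 2).re = 0 ∧ (qu 2).imI = 0 ∧ (qu 2).imJ = 0 ∧ (qu 2).imK = 1 :=
    ⟨rfl, rfl, rfl, rfl⟩
  have h3 : i = 0 ∨ i = 1 ∨ i = 2 := by fin_cases i <;> simp
  have h4 : j = 0 ∨ j = 1 ∨ j = 2 := by fin_cases j <;> simp
  rcases h3 with rfl | rfl | rfl <;> rcases h4 with rfl | rfl | rfl <;>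
    simp only [e0.1, e0.2.1, e0.2.2.1, e0.2.2.2, e1.1, e1.2.1, e1.2.2.1, e1.2.2.2,
      e2.1, e2.2.1, e2.2.2.1, e2.2.2.2, if_true, Fin.reduceEq, if_false] <;>
    first
      | ring1
      | linear_combination h

theorem j16284_E1 (w : Q) (x : M) (d : Fin 6) :
    Sm (fun z : M => inner ℝ w ((z.1 : Sph) : Q)) ∧
    E d (fun z : M => inner ℝ w ((z.1 : Sph) : Q)) x = inner ℝ w (dir d (inc x)).1 := by
  have hS : Sm (fun z : M => inner ℝ w ((z.1 : Sph) : Q)) :=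
    sm_ambient (fun y => inner ℝ w y.1) (contDiff_const.inner ℝ contDiff_fst)
  refine ⟨hS, ?_⟩
  have hd : DifferentiableAt ℝ (fun y => inner ℝ w (((nrm y).1 : Sph) : Q)) (inc x) :=
    (hS.contDiffAt (nrm_inc.2.mem_nhds (nrm_inc.1 x).2)).differentiableAt (by simp)
  have hx : ‖((x.1 : Sph) : Q)‖ = 1 := mem_sphere_zero_iff_norm.1 x.1.2
  have hort : inner ℝ ((x.1 : Sph) : Q) (dir d (inc x)).1 = 0 := by
    have := j16284_comp ((x.1 : Sph) : Q)
    fin_cases d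
    · exact this 0
    · exact this 1
    · exact this 2
    · simp [dir]
    · simp [dir]
    · simp [dir]
  have h1 := hd.hasFDerivAt.hasLineDerivAt (dir d (inc x))
  have h2 := j16284_deriv hx hort w
  exact HasDerivAt.unique h1 h2

theorem j16284_E2 (w : Q) (x : M) (d : Fin 6) :
    Sm (fun z : M => inner ℝ w ((z.2 : Sph) : Q)) ∧
    E d (fun z : M => inner ℝ w ((z.2 : Sph) : Q)) x = inner ℝ w (dir d (inc x)).2 := by
  have hS : Sm (fun z : M => inner ℝ w ((z.2 : Sph) : Q)) :=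
    sm_ambient (fun y => inner ℝ w y.2) (contDiff_const.inner ℝ contDiff_snd)
  refine ⟨hS, ?_⟩
  have hd : DifferentiableAt ℝ (fun y => inner ℝ w (((nrm y).2 : Sph) : Q)) (inc x) :=
    (hS.contDiffAt (nrm_inc.2.mem_nhds (nrm_inc.1 x).2)).differentiableAt (by simp)
  have hx : ‖((x.2 : Sph) : Q)‖ = 1 := mem_sphere_zero_iff_norm.1 x.2.2
  have hort : inner ℝ ((x.2 : Sph) : Q) (dir d (inc x)).2 = 0 := by
    have := j16284_comp ((x.2 : Sph) : Q)
    fin_cases d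
    · simp [dir]
    · simp [dir]
    · simp [dir]
    · exact this 0
    · exact this 1
    · exact this 2
  have h1 := hd.hasFDerivAt.hasLineDerivAt (dir d (inc x))
  have h2 := j16284_deriv hx hort w
  exact HasDerivAt.unique h1 h2

theorem E_ind (x : M) (k : Fin 6 → ℝ) (h : ∀ f, Sm f → ∑ d, k d * E d f x = 0) : k = 0 := by
  have hx1 : ‖((x.1 : Sph) : Q)‖ = 1 := mem_sphere_zero_iff_norm.1 x.1.2
  have hx2 : ‖((x.2 : Sph) : Q)‖ = 1 := mem_sphere_zero_iff_norm.1 x.2.2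
  have H1 : ∀ i : Fin 3, (∑ d, k d * inner ℝ (qu i * ((x.1 : Sph) : Q)) (dir d (inc x)).1) = 0 := by
    intro i
    have := h _ (j16284_E1 (qu i * ((x.1 : Sph) : Q)) x 0).1
    simp only [(j16284_E1 (qu i * ((x.1 : Sph) : Q)) x _).2] at this
    exact this
  have H2 : ∀ i : Fin 3, (∑ d, k d * inner ℝ (qu i * ((x.2 : Sph) : Q)) (dir d (inc x)).2) = 0 := by
    intro i
    have := h _ (j16284_E2 (qu i * ((x.2 : Sph) : Q)) x 0).1
    simp only [(j16284_E2 (qu i * ((x.2 : Sph) : Q)) x _).2] at this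
    exact this
  have D1 := j16284_delta _ hx1
  have D2 := j16284_delta _ hx2
  have A1 : ∀ i : Fin 3, k 0 * (if i = 0 then (1:ℝ) else 0) + k 1 * (if i = 1 then (1:ℝ) else 0) +
      k 2 * (if i = 2 then (1:ℝ) else 0) = 0 := by
    intro i
    have := H1 i
    rw [Fin.sum_univ_six] at this
    have e0 : (dir 0 (inc x)).1 = qu 0 * ((x.1 : Sph) : Q) := rfl
    have e1 : (dir 1 (inc x)).1 = qu 1 * ((x.1 : Sph) : Q) := rfl
    have e2 : (dir 2 (inc x)).1 = qu 2 * ((x.1 : Sph) : Q) := rfl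
    have e3 : (dir 3 (inc x)).1 = 0 := rfl
    have e4 : (dir 4 (inc x)).1 = 0 := rfl
    have e5 : (dir 5 (inc x)).1 = 0 := rfl
    rw [e0, e1, e2, e3, e4, e5, D1, D1, D1] at this
    simpa using this
  have A2 : ∀ i : Fin 3, k 3 * (if i = 0 then (1:ℝ) else 0) + k 4 * (if i = 1 then (1:ℝ) else 0) +
      k 5 * (if i = 2 then (1:ℝ) else 0) = 0 := by
    intro i
    have := H2 i
    rw [Fin.sum_univ_six] at this
    have e0 : (dir 0 (inc x)).2 = 0 := rfl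
    have e1 : (dir 1 (inc x)).2 = 0 := rfl
    have e2 : (dir 2 (inc x)).2 = 0 := rfl
    have e3 : (dir 3 (inc x)).2 = qu 0 * ((x.2 : Sph) : Q) := rfl
    have e4 : (dir 4 (inc x)).2 = qu 1 * ((x.2 : Sph) : Q) := rfl
    have e5 : (dir 5 (inc x)).2 = qu 2 * ((x.2 : Sph) : Q) := rfl
    rw [e0, e1, e2, e3, e4, e5, D2, D2, D2] at this
    simpa using this
  have a0 := A1 0
  have a1 := A1 1
  have a2 := A1 2
  have b0 := A2 0
  have b1 := A2 1
  have b2 := A2 2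
  funext d
  fin_cases d
  · simpa using a0
  · simpa using a1
  · simpa using a2
  · simpa using b0
  · simpa using b1
  · simpa using b2

end FPM
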