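import Pool.Agent.Helper427.FPM.Defs
import Pool.Agent.Helper427.FPM.P_mu_prob
import Pool.Agent.Helper427.FPM.P_ip_props
import Pool.Agent.Helper427.FPM.P_kk_props

open scoped Quaternion ContDiff
open MeasureTheory

namespace FPM



instance kri_haar : mu.IsHaarMeasure := by unfold mu; infer_instance

theorem kri_one (a : Sph) : ip a a = 1 := by
  have := ip_props.2.2.1 a a
  rw [sub_self, norm_zero] at this
  linarith

theorem kri_ip (g a b : Sph) : ip a b = ip (g⁻¹ * a) (g⁻¹ * b) := (ip_props.2.2.2 g⁻¹ a b).symm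

theorem kri_ip1 (a b : Sph) : ip a b = ip 1 (a⁻¹ * b) := by
  rw [kri_ip a a b, inv_mul_cancel]

theorem kri_inv (m : ℕ) (x z : M) : kr m x z = kr m 1 (x⁻¹ * z) := by
  unfold kr kk
  rw [kri_ip1 x.1 z.1, kri_ip1 x.2 z.2, Prod.fst_mul, Prod.snd_mul, Prod.fst_inv, Prod.snd_inv,
    Prod.fst_one, Prod.snd_one]

theorem kri_cont (m : ℕ) : Continuous (fun z : M => kr m 1 z) := by
  have k3 := (kk_props m m).2.2.1
  have h : Continuous (fun z : M => ((1 : M), z)) := Continuous.prodMk continuous_const continuous_id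
  have h2 := Continuous.comp k3 h
  have e : (fun z : M => kr m 1 z) = (fun p : M × M => kk m m p.1 p.2) ∘ (fun z : M => ((1 : M), z)) := by
    funext z
    rw [Function.comp_apply, kr]
  rw [e]
  exact h2

theorem kri_nn (m : ℕ) (z : M) : 0 ≤ kr m 1 z := (kk_props m m).1 1 z

theorem kri_ne (m : ℕ) : kr m 1 1 ≠ 0 := by
  have e : kr m 1 1 = (1 + 1) ^ m * (1 + 1) ^ m := by
    unfold kr kk
    rw [kri_one, kri_one]
  rw [e]
  positivity

theorem kri_supp (m : ℕ) : HasCompactSupport (fun z : M => kr m 1 z) :=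
  HasCompactSupport.of_compactSpace _

theorem kri_pos (m : ℕ) : 0 < Im m := by
  unfold Im
  exact (kri_cont m).integral_pos_of_hasCompactSupport_nonneg_nonzero (kri_supp m) (kri_nn m)
    (kri_ne m)

theorem kr_int (m : ℕ) (x : M) : 0 < Im m ∧ ∫ z, kr m x z ∂mu = Im m := by
  refine ⟨kri_pos m, ?_⟩
  simp only [kri_inv m x]
  exact integral_mul_left_eq_self (fun z => kr m 1 z) x⁻¹

end FPM
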