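import Pool.Agent.Helper427.FPM.Defs
import Pool.Agent.Helper427.FPM.P_mu_prob

open scoped Quaternion ContDiff
open MeasureTheory

namespace FPM



theorem int_cont (f : M → ℝ) (hf : Continuous f) : Integrable f mu := by
  haveI := mu_prob
  exact hf.integrable_of_hasCompactSupport (HasCompactSupport.of_compactSpace f)

theorem cs_aux (k u : M → ℝ) (hk : Continuous k) (hu : Continuous u) :
    (∫ z, k z * u z ∂mu) ^ 2 ≤ (∫ z, |k z| ∂mu) * ∫ z, |k z| * u z ^ 2 ∂mu := by
  set A := ∫ z, |k z| ∂mu with hA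
  set B := ∫ z, |k z| * |u z| ∂mu with hB
  set D := ∫ z, |k z| * u z ^ 2 ∂mu with hD
  have i1 := int_cont (fun z => |k z|) hk.abs
  have i2 := int_cont (fun z => |k z| * |u z|) (hk.abs.mul hu.abs)
  have i3 := int_cont (fun z => |k z| * u z ^ 2) (hk.abs.mul (hu.pow 2))
  have hq : ∀ t : ℝ, 0 ≤ A * (t * t) + (-2 * B) * t + D := by
    intro t
    have h0 : 0 ≤ ∫ z, |k z| * (t - |u z|) ^ 2 ∂mu :=
      integral_nonneg fun z => mul_nonneg (abs_nonneg _) (sq_nonneg _)
    have h1 : ∫ z, |k z| * (t - |u z|) ^ 2 ∂mu =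
        ∫ z, ((t * t) * |k z| + (-2 * t) * (|k z| * |u z|) + |k z| * u z ^ 2) ∂mu := by
      congr 1
      funext z
      have : |u z| ^ 2 = u z ^ 2 := sq_abs _
      rw [← this]
      ring
    have j1 : Integrable (fun z => (t * t) * |k z| + (-2 * t) * (|k z| * |u z|)) mu :=
      (i1.const_mul _).add (i2.const_mul _)
    rw [h1, integral_add j1 i3,
      integral_add (i1.const_mul _) (i2.const_mul _), integral_const_mul, integral_const_mul] at h0
    rw [← hA, ← hB, ← hD] at h0
    linarith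
  have hd := discrim_le_zero hq
  unfold discrim at hd
  have hB2 : B ^ 2 ≤ A * D := by nlinarith
  have hle : |∫ z, k z * u z ∂mu| ≤ B := by
    refine (abs_integral_le_integral_abs).trans (le_of_eq ?_)
    rw [hB]
    congr 1
    funext z
    exact abs_mul _ _
  calc (∫ z, k z * u z ∂mu) ^ 2 = |∫ z, k z * u z ∂mu| ^ 2 := (sq_abs _).symm
    _ ≤ B ^ 2 := pow_le_pow_left₀ (abs_nonneg _) hle 2
    _ ≤ A * D := hB2

/-- Schur test -/
theorem schur (k : M → M → ℝ) (hk : Continuous (fun p : M × M => k p.1 p.2)) (C : ℝ)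
    (h1 : ∀ x, ∫ z, |k x z| ∂mu ≤ C) (h2 : ∀ z, ∫ x, |k x z| ∂mu ≤ C)
    (u : M → ℝ) (hu : Continuous u) :
    n2 (fun x => ∫ z, k x z * u z ∂mu) ≤ C ^ 2 * n2 u := by
  haveI := mu_prob
  have hC : 0 ≤ C := le_trans (integral_nonneg fun z => abs_nonneg _) (h1 1)
  have hkx : ∀ x, Continuous (k x) := fun x => hk.comp (continuous_const.prodMk continuous_id)
  have hkz : ∀ z, Continuous (fun x => k x z) := fun z =>
    hk.comp (continuous_id.prodMk continuous_const)
  set g : M → M → ℝ := fun x z => |k x z| * u z ^ 2 with hg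
  have hgc : Continuous (Function.uncurry g) :=
    (hk.abs).mul ((hu.comp continuous_snd).pow 2)
  have hpar : Continuous fun x => ∫ z, g x z ∂mu := by
    have := continuous_parametric_integral_of_continuous (μ := mu) hgc (isCompact_univ (X := M))
    simpa using this
  have hpt : ∀ x, (∫ z, k x z * u z ∂mu) ^ 2 ≤ C * ∫ z, g x z ∂mu := by
    intro x
    refine (cs_aux (k x) u (hkx x) hu).trans ?_
    apply mul_le_mul_of_nonneg_right (h1 x)
    exact integral_nonneg fun z => mul_nonneg (abs_nonneg _) (sq_nonneg _)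
  have hstep1 : n2 (fun x => ∫ z, k x z * u z ∂mu) ≤ ∫ x, C * ∫ z, g x z ∂mu ∂mu := by
    unfold n2
    apply integral_mono_of_nonneg
    · exact Filter.Eventually.of_forall fun x => sq_nonneg _
    · exact int_cont _ (continuous_const.mul hpar)
    · exact Filter.Eventually.of_forall hpt
  have hswap : ∫ x, ∫ z, g x z ∂mu ∂mu = ∫ z, ∫ x, g x z ∂mu ∂mu :=
    integral_integral_swap_of_hasCompactSupport hgc (HasCompactSupport.of_compactSpace _)
  have hstep2 : ∫ z, ∫ x, g x z ∂mu ∂mu ≤ ∫ z, C * u z ^ 2 ∂mu := by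
    apply integral_mono_of_nonneg
    · exact Filter.Eventually.of_forall fun z => integral_nonneg fun x =>
        mul_nonneg (abs_nonneg _) (sq_nonneg _)
    · exact int_cont _ (continuous_const.mul (hu.pow 2))
    · refine Filter.Eventually.of_forall fun z => ?_
      simp only [hg]
      rw [integral_mul_const]
      exact mul_le_mul_of_nonneg_right (h2 z) (sq_nonneg _)
  calc n2 (fun x => ∫ z, k x z * u z ∂mu) ≤ ∫ x, C * ∫ z, g x z ∂mu ∂mu := hstep1
    _ = C * ∫ z, ∫ x, g x z ∂mu ∂mu := by rw [integral_const_mul, hswap]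
    _ ≤ C * ∫ z, C * u z ^ 2 ∂mu := mul_le_mul_of_nonneg_left hstep2 hC
    _ = C ^ 2 * n2 u := by
      rw [integral_const_mul]
      unfold n2
      ring

end FPM
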