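import Pool.Agent.Helper427.FPM.Defs
import Pool.Agent.Helper427.FPM.P_mu_prob
import Pool.Agent.Helper427.FPM.P_kk_props
import Pool.Agent.Helper427.FPM.P_kr_int
import Pool.Agent.Helper427.FPM.P_schur

open scoped Quaternion ContDiff
open MeasureTheory

namespace FPM



theorem Jm_bdd (m : ℕ) (u : M → ℝ) (hu : Continuous u) : n2 (Jm m u) ≤ n2 u := by
  obtain ⟨hk0, hksymm, hkc, -⟩ := kk_props m m
  have hI : 0 < Im m := (kr_int m 1).1
  have hkint : ∀ x, ∫ z, |(Im m)⁻¹ * kr m x z| ∂mu ≤ 1 := by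
    intro x
    have h1 : ∀ z, |(Im m)⁻¹ * kr m x z| = (Im m)⁻¹ * kr m x z := fun z =>
      abs_of_nonneg (mul_nonneg (inv_pos.mpr hI).le (hk0 x z))
    simp only [h1]
    rw [integral_const_mul, (kr_int m x).2, inv_mul_cancel₀ hI.ne']
  have h := schur (fun x z => (Im m)⁻¹ * kr m x z) (continuous_const.mul hkc) 1 hkint
    (by
      intro z
      have h2 : ∀ x, kr m x z = kr m z x := fun x => hksymm x z
      simp only [h2]
      exact hkint z) u hu
  have h3 : Jm m u = fun x => ∫ z, (Im m)⁻¹ * kr m x z * u z ∂mu := by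
    funext x
    unfold Jm
    rw [← integral_const_mul]
    simp only [mul_assoc]
  rw [h3]
  simpa using h

end FPM
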