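import Pool.Agent.Helper427.FPM.Defs
import Pool.Agent.Helper427.FPM.P_mu_prob
import Pool.Agent.Helper427.FPM.P_sm_basic
import Pool.Agent.Helper427.FPM.P_sm_cont
import Pool.Agent.Helper427.FPM.P_finite_rank

open scoped Quaternion ContDiff
open MeasureTheory

namespace FPM



theorem cont_int (g : M → ℝ) (hg : Continuous g) : Integrable g mu := by
  haveI := mu_prob
  exact hg.integrable_of_hasCompactSupport (HasCompactSupport.of_compactSpace _)

theorem sm_sum {n : ℕ} (P : Fin n → M → ℝ) (c : Fin n → ℝ) (hP : ∀ j, Sm (P j))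
    (s : Finset (Fin n)) : Sm (fun x => ∑ j ∈ s, c j * P j x) := by
  classical
  induction s using Finset.induction_on with
  | empty =>
    have := sm_basic.1 0
    simpa using this
  | insert a s ha ih =>
    have h1 := sm_basic.2.2 _ _ (sm_basic.1 (c a)) (hP a)
    have h2 := sm_basic.2.1 _ _ h1 ih
    have h3 : (fun x => ∑ j ∈ insert a s, c j * P j x) =
        fun x => c a * P a x + ∑ j ∈ s, c j * P j x := by
      funext x; rw [Finset.sum_insert ha]
    rw [h3]; exact h2

theorem Jm_sm (m : ℕ) (f : M → ℝ) (hf : Continuous f) : Sm (Jm m f) := by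
  obtain ⟨n, P, R, hP, hR, hk⟩ := finite_rank m
  have h : Jm m f = fun x => ∑ j, ((Im m)⁻¹ * ∫ z, R j z * f z ∂mu) * P j x := by
    funext x
    unfold Jm
    have h1 : (fun z => kr m x z * f z) = fun z => ∑ j, P j x * (R j z * f z) := by
      funext z
      rw [hk, Finset.sum_mul]
      exact Finset.sum_congr rfl fun j _ => by ring
    rw [h1, integral_finsetSum, Finset.mul_sum]
    · refine Finset.sum_congr rfl fun j _ => ?_
      rw [integral_const_mul]; ring
    · intro j _
      exact (cont_int _ ((sm_cont _ (hR j)).mul hf)).const_mul _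
  rw [h]
  exact sm_sum P _ hP Finset.univ

end FPM
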