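import Pool.Agent.Helper427.FPM.Defs
import Pool.Agent.Helper427.FPM.P_mu_prob
import Pool.Agent.Helper427.FPM.P_nrm_inc
import Pool.Agent.Helper427.FPM.P_sm_basic
import Pool.Agent.Helper427.FPM.P_sm_ambient
import Pool.Agent.Helper427.FPM.P_sm_cont
import Pool.Agent.Helper427.FPM.P_E_alg
import Pool.Agent.Helper427.FPM.P_flow
import Pool.Agent.Helper427.FPM.P_int_E
import Pool.Agent.Helper427.FPM.P_ip_props
import Pool.Agent.Helper427.FPM.P_dq_props
import Pool.Agent.Helper427.FPM.P_kk_props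

open scoped Quaternion ContDiff
open MeasureTheory

namespace FPM



theorem mom_int {f : M → ℝ} (hf : Continuous f) : Integrable f mu := by
  haveI := mu_prob
  exact hf.integrable_of_hasCompactSupport (HasCompactSupport.of_compactSpace f)

theorem mom_abs (c K K' : M → ℝ) (d : Fin 3 → M → ℝ) (a : ℕ) (hc : Continuous c)
    (hK : Continuous K) (hK' : Continuous K') (hd : ∀ i, Continuous (d i))
    (h0 : ∀ i, ∫ z, (-(c z) * K z + d i z ^ 2 * (a * K' z)) ∂mu = 0)
    (hsum : ∀ z, ∑ i, d i z ^ 2 = 1 - c z ^ 2)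
    (hKK : ∀ z, (a : ℝ) * ((1 + c z) * K' z) = a * K z) (hc1 : ∀ z, c z ≤ 1)
    (hK0 : ∀ z, 0 ≤ K z) :
    a * ∫ z, (1 - c z) * K z ∂mu ≤ 3 * ∫ z, K z ∂mu := by
  have hi : ∀ i, Integrable (fun z => -(c z) * K z + d i z ^ 2 * (a * K' z)) mu := fun i =>
    mom_int (by have := hd i; fun_prop)
  have h1 : ∫ z, ∑ i, (-(c z) * K z + d i z ^ 2 * (a * K' z)) ∂mu = 0 := by
    rw [integral_finsetSum _ (fun i _ => hi i)]
    exact Finset.sum_eq_zero fun i _ => h0 i
  have h2 : ∀ z, ∑ i, (-(c z) * K z + d i z ^ 2 * (a * K' z)) =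
      a * ((1 - c z) * K z) - 3 * (c z * K z) := by
    intro z
    have e1 : ∑ i, d i z ^ 2 * (a * K' z) = (1 - c z ^ 2) * (a * K' z) := by
      rw [← Finset.sum_mul, hsum]
    rw [Finset.sum_add_distrib, e1, Finset.sum_const, Finset.card_univ, Fintype.card_fin]
    have h3 := hKK z
    have h4 : (1 - c z ^ 2) * ((a : ℝ) * K' z) = (1 - c z) * ((a : ℝ) * ((1 + c z) * K' z)) := by
      ring
    rw [h4, h3]
    simp only [nsmul_eq_mul]
    push_cast
    ring
  simp only [h2] at h1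
  have i1 : Integrable (fun z => (1 - c z) * K z) mu := mom_int (by fun_prop)
  have i2 : Integrable (fun z => c z * K z) mu := mom_int (by fun_prop)
  have i3 : Integrable K mu := mom_int hK
  rw [integral_sub (i1.const_mul _) (i2.const_mul _), integral_const_mul, integral_const_mul] at h1
  have h5 : ∫ z, c z * K z ∂mu ≤ ∫ z, K z ∂mu := by
    apply integral_mono i2 i3
    intro z
    show c z * K z ≤ K z
    nlinarith [hc1 z, hK0 z]
  linarith

theorem mom_qq (i : Fin 3) : qu i * qu i = -1 := by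
  fin_cases i <;> · ext <;> simp [qu]

theorem mom_norm (i : Fin 3) (y : Sph) (s : ℝ) :
    ‖(y : Q) + s • (qu i * (y : Q))‖ = √(1 + s ^ 2) := by
  have h1 : (y : Q) + s • (qu i * (y : Q)) = (1 + s • qu i) * (y : Q) := by
    rw [add_mul, one_mul, smul_mul_assoc]
  have h2 : ‖(y : Q)‖ = 1 := by simpa using y.2
  rw [h1, norm_mul, h2, mul_one]
  rw [eq_comm, Real.sqrt_eq_iff_mul_self_eq (by positivity) (norm_nonneg _),
    ← Quaternion.normSq_eq_norm_mul_self, Quaternion.normSq_def']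
  fin_cases i <;> simp [qu]

theorem mom_nz (y : Sph) : nz (y : Q) = y := by
  have h2 : ‖(y : Q)‖ = 1 := by simpa using y.2
  have h0 : (y : Q) ≠ 0 := by
    intro h
    rw [h, norm_zero] at h2
    exact zero_ne_one h2
  unfold nz
  rw [dif_neg h0]
  apply Subtype.ext
  show (‖(y : Q)‖⁻¹ : ℝ) • (y : Q) = y
  rw [h2, inv_one, one_smul]

theorem mom_curve (i : Fin 3) (y : Sph) :
    HasDerivAt (fun s : ℝ => ((nz ((y : Q) + s • (qu i * (y : Q))) : Sph) : Q))
      (qu i * (y : Q)) 0 := by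
  have h1 : (fun s : ℝ => ((nz ((y : Q) + s • (qu i * (y : Q))) : Sph) : Q)) =
      fun s : ℝ => (√(1 + s ^ 2))⁻¹ • ((y : Q) + s • (qu i * (y : Q))) := by
    funext s
    have hn := mom_norm i y s
    have h0 : (y : Q) + s • (qu i * (y : Q)) ≠ 0 := by
      intro h
      rw [h, norm_zero] at hn
      have : 0 < √(1 + s ^ 2) := Real.sqrt_pos.mpr (by positivity)
      exact this.ne hn
    unfold nz
    rw [dif_neg h0]
    show (‖(y : Q) + s • (qu i * (y : Q))‖⁻¹ : ℝ) • ((y : Q) + s • (qu i * (y : Q))) = _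
    rw [hn]
  rw [h1]
  have h2 : HasDerivAt (fun s : ℝ => 1 + s ^ 2) (2 * (0:ℝ)) 0 := by
    have := (hasDerivAt_pow 2 (0:ℝ)).const_add 1
    simpa using this
  have h3 : HasDerivAt (fun s : ℝ => (√(1 + s ^ 2))⁻¹) 0 0 := by
    have h4 := (h2.sqrt (by norm_num)).inv (by norm_num)
    exact h4.congr_deriv (by norm_num)
  have h5 : HasDerivAt (fun s : ℝ => (y : Q) + s • (qu i * (y : Q))) (qu i * (y : Q)) 0 := by
    have := ((hasDerivAt_id (0:ℝ)).smul_const (qu i * (y : Q))).const_add (y : Q)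
    simpa using this
  have h6 := h3.smul h5
  exact h6.congr_deriv (by norm_num)

theorem mom_line (i : Fin 6) (f : M → ℝ) (hf : Sm f) (z : M) :
    HasDerivAt (fun s : ℝ => f (nrm (inc z + s • dir i (inc z)))) (E i f z) 0 := by
  have h1 : DifferentiableAt ℝ (fun y => f (nrm y)) (inc z) := by
    have h2 := hf.contDiffAt (nrm_inc.2.mem_nhds (nrm_inc.1 z).2)
    exact h2.differentiableAt (by simp)
  have h3 : HasDerivAt (fun s : ℝ => inc z + s • dir i (inc z)) (dir i (inc z)) 0 := by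
    have := ((hasDerivAt_id (0:ℝ)).smul_const (dir i (inc z))).const_add (inc z)
    simpa using this
  have h4 : inc z + (0:ℝ) • dir i (inc z) = inc z := by simp
  have h5 := h1.hasFDerivAt
  rw [← h4] at h5
  have h6 := h5.comp_hasDerivAt (0:ℝ) h3
  rw [h4] at h6
  exact h6

theorem mom_dir1 (i : Fin 3) (y : Q × Q) : dir (Fin.castAdd 3 i) y = (qu i * y.1, 0) := by
  fin_cases i <;> rfl

theorem mom_dir2 (i : Fin 3) (y : Q × Q) : dir (Fin.natAdd 3 i) y = (0, qu i * y.2) := by
  fin_cases i <;> rfl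

theorem mom_nrm1 (i : Fin 3) (z : M) (s : ℝ) :
    nrm (inc z + s • dir (Fin.castAdd 3 i) (inc z)) =
      (nz ((z.1 : Q) + s • (qu i * (z.1 : Q))), z.2) := by
  rw [mom_dir1]
  unfold nrm inc
  apply Prod.ext
  · rfl
  · show nz ((z.2 : Q) + s • (0 : Q)) = z.2
    rw [smul_zero, add_zero, mom_nz]

theorem mom_nrm2 (i : Fin 3) (z : M) (s : ℝ) :
    nrm (inc z + s • dir (Fin.natAdd 3 i) (inc z)) =
      (z.1, nz ((z.2 : Q) + s • (qu i * (z.2 : Q)))) := by
  rw [mom_dir2]
  unfold nrm inc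
  apply Prod.ext
  · show nz ((z.1 : Q) + s • (0 : Q)) = z.1
    rw [smul_zero, add_zero, mom_nz]
  · rfl

/-- derivative of `dq i y w * (1 + ip w y)^a * B` along the curve -/
theorem mom_der (i : Fin 3) (y w : Sph) (a : ℕ) (B : ℝ) :
    HasDerivAt (fun s : ℝ => dq i (nz ((y : Q) + s • (qu i * (y : Q)))) w *
      ((1 + ip w (nz ((y : Q) + s • (qu i * (y : Q))))) ^ a * B))
      (-(ip w y) * ((1 + ip w y) ^ a * B) +
        dq i y w ^ 2 * (a * ((1 + ip w y) ^ (a - 1) * B))) 0 := by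
  have hc := mom_curve i y
  have hz0 : nz ((y : Q) + (0:ℝ) • (qu i * (y : Q))) = y := by
    rw [zero_smul, add_zero, mom_nz]
  have h1 : HasDerivAt (fun s : ℝ => dq i (nz ((y : Q) + s • (qu i * (y : Q)))) w)
      (-(ip w y)) 0 := by
    have h2 := (hc.const_mul (qu i)).inner ℝ (hasDerivAt_const (0:ℝ) (w : Q))
    refine h2.congr_deriv ?_
    rw [hz0, inner_zero_right, zero_add, ← mul_assoc, mom_qq, neg_mul, one_mul, inner_neg_left]
    unfold ip
    rw [real_inner_comm]
  have h3 : HasDerivAt (fun s : ℝ => ip w (nz ((y : Q) + s • (qu i * (y : Q)))))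
      (dq i y w) 0 := by
    have h2 := (hasDerivAt_const (0:ℝ) (w : Q)).inner ℝ hc
    refine h2.congr_deriv ?_
    rw [inner_zero_left, add_zero]
    unfold dq
    rw [real_inner_comm]
  have h4 := ((h3.const_add 1).pow a).mul_const B
  have h5 := h1.mul h4
  refine h5.congr_deriv ?_
  simp only [Pi.pow_apply]
  rw [hz0]
  ring

theorem mom_cont_ip1 (x : M) : Continuous fun z : M => ip x.1 z.1 := by
  unfold ip; fun_prop

theorem mom_cont_ip2 (x : M) : Continuous fun z : M => ip x.2 z.2 := by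
  unfold ip; fun_prop

theorem mom_cont_kk (a b : ℕ) (x : M) : Continuous fun z : M => kk a b x z := by
  have h1 := mom_cont_ip1 x
  have h2 := mom_cont_ip2 x
  unfold kk; fun_prop

theorem mom_sm_dq1 (i : Fin 3) (x : M) : Sm fun z : M => dq i z.1 x.1 := by
  have h := sm_ambient (fun y => inner ℝ (qu i * y.1) (x.1 : Q))
    (ContDiff.inner ℝ (by fun_prop) contDiff_const)
  exact h

theorem mom_sm_dq2 (i : Fin 3) (x : M) : Sm fun z : M => dq i z.2 x.2 := by
  have h := sm_ambient (fun y => inner ℝ (qu i * y.2) (x.2 : Q))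
    (ContDiff.inner ℝ (by fun_prop) contDiff_const)
  exact h

/-- moments of the kernel, from `∑ E_i (E_i c · kernel)` having integral zero -/
theorem moment (a b : ℕ) (x : M) :
    a * ∫ z, (1 - ip x.1 z.1) * kk a b x z ∂mu ≤ 3 * ∫ z, kk a b x z ∂mu ∧
    b * ∫ z, (1 - ip x.2 z.2) * kk a b x z ∂mu ≤ 3 * ∫ z, kk a b x z ∂mu := by
  constructor
  · apply mom_abs (fun z => ip x.1 z.1) (fun z => kk a b x z) (fun z => kk (a - 1) b x z)
      (fun i z => dq i z.1 x.1) a (mom_cont_ip1 x) (mom_cont_kk a b x) (mom_cont_kk (a - 1) b x)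
      (fun i => sm_cont _ (mom_sm_dq1 i x))
    · intro i
      have hS : Sm (fun z => dq i z.1 x.1 * kk a b x z) :=
        sm_basic.2.2 _ _ (mom_sm_dq1 i x) ((kk_props a b).2.2.2 x)
      rw [← int_E (Fin.castAdd 3 i) _ hS]
      congr 1
      funext z
      have h1 := mom_line (Fin.castAdd 3 i) _ hS z
      have h2 := mom_der i z.1 x.1 a ((1 + ip x.2 z.2) ^ b)
      have h3 : (fun s : ℝ => (fun z : M => dq i z.1 x.1 * kk a b x z)
          (nrm (inc z + s • dir (Fin.castAdd 3 i) (inc z)))) =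
          fun s : ℝ => dq i (nz ((z.1 : Q) + s • (qu i * (z.1 : Q)))) x.1 *
      ((1 + ip x.1 (nz ((z.1 : Q) + s • (qu i * (z.1 : Q))))) ^ a * (1 + ip x.2 z.2) ^ b) := by
        funext s
        rw [mom_nrm1]
        rfl
      rw [h3] at h1
      exact h2.unique h1
    · intro z
      rw [dq_props.2.2 z.1 x.1, ip_props.2.1 z.1 x.1]
    · intro z
      rcases Nat.eq_zero_or_pos a with h | h
      · subst h; simp
      · obtain ⟨k, rfl⟩ : ∃ k, a = k + 1 := ⟨a - 1, by omega⟩
        unfold kk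
        rw [Nat.add_sub_cancel]
        ring
    · intro z
      exact (le_abs_self _).trans (ip_props.1 _ _)
    · intro z
      exact (kk_props a b).1 x z
  · apply mom_abs (fun z => ip x.2 z.2) (fun z => kk a b x z) (fun z => kk a (b - 1) x z)
      (fun i z => dq i z.2 x.2) b (mom_cont_ip2 x) (mom_cont_kk a b x) (mom_cont_kk a (b - 1) x)
      (fun i => sm_cont _ (mom_sm_dq2 i x))
    · intro i
      have hS : Sm (fun z => dq i z.2 x.2 * kk a b x z) :=
        sm_basic.2.2 _ _ (mom_sm_dq2 i x) ((kk_props a b).2.2.2 x)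
      rw [← int_E (Fin.natAdd 3 i) _ hS]
      congr 1
      funext z
      have h1 := mom_line (Fin.natAdd 3 i) _ hS z
      have h2 := mom_der i z.2 x.2 b ((1 + ip x.1 z.1) ^ a)
      have h3 : (fun s : ℝ => (fun z : M => dq i z.2 x.2 * kk a b x z)
          (nrm (inc z + s • dir (Fin.natAdd 3 i) (inc z)))) =
          fun s : ℝ => dq i (nz ((z.2 : Q) + s • (qu i * (z.2 : Q)))) x.2 *
      ((1 + ip x.2 (nz ((z.2 : Q) + s • (qu i * (z.2 : Q))))) ^ b * (1 + ip x.1 z.1) ^ a) := by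
        funext s
        rw [mom_nrm2]
        unfold kk
        show _ * ((1 + ip x.1 z.1) ^ a * _) = _
        rw [mul_comm ((1 + ip x.1 z.1) ^ a)]
      rw [h3] at h1
      rw [← h2.unique h1]
      unfold kk
      ring
    · intro z
      rw [dq_props.2.2 z.2 x.2, ip_props.2.1 z.2 x.2]
    · intro z
      rcases Nat.eq_zero_or_pos b with h | h
      · subst h; simp
      · obtain ⟨k, rfl⟩ : ∃ k, b = k + 1 := ⟨b - 1, by omega⟩
        unfold kk
        rw [Nat.add_sub_cancel]
        ring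
    · intro z
      exact (le_abs_self _).trans (ip_props.1 _ _)
    · intro z
      exact (kk_props a b).1 x z

end FPM
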