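import Pool.Agent.Helper427.FPM.Defs
import Pool.Agent.Helper427.FPM.P_mu_prob
import Pool.Agent.Helper427.FPM.P_ip_props
import Pool.Agent.Helper427.FPM.P_kk_props
import Pool.Agent.Helper427.FPM.P_kr_int
import Pool.Agent.Helper427.FPM.P_moment

open scoped Quaternion ContDiff
open MeasureTheory

namespace FPM



set_option maxHeartbeats 1000000 in
theorem kr_bound (m : ℕ) (hm : 1 ≤ m) (ε : ℝ) (hε : 0 < ε) (x : M) :
    ∫ z, dd x z * kr m x z ∂mu ≤ (ε + 6 / (m * ε)) * Im m := by
  have := mu_prob
  have hcont : ∀ f : M → ℝ, Continuous f → Integrable f mu := fun f hf =>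
    hf.integrable_of_hasCompactSupport (HasCompactSupport.of_compactSpace f)
  have hk : Continuous fun z => kr m x z :=
    (kk_props m m).2.2.1.comp (continuous_const.prodMk continuous_id)
  have hc1 : Continuous fun z : M => ip x.1 z.1 := by
    unfold ip
    exact continuous_const.inner (continuous_subtype_val.comp continuous_fst)
  have hc2 : Continuous fun z : M => ip x.2 z.2 := by
    unfold ip
    exact continuous_const.inner (continuous_subtype_val.comp continuous_snd)
  have hd : Continuous fun z : M => dd x z := by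
    unfold dd
    exact ((continuous_const.sub (continuous_subtype_val.comp continuous_fst)).norm).add
      ((continuous_const.sub (continuous_subtype_val.comp continuous_snd)).norm)
  have hd1 : ∀ a b : Sph, ‖(a : Q) - (b : Q)‖ ≤ ε / 2 + (1 - ip a b) / ε := by
    intro a b
    have h := ip_props.2.2.1 a b
    have h2 : 1 - ip a b = ‖(a : Q) - (b : Q)‖ ^ 2 / 2 := by rw [h]; ring
    rw [h2]
    have h3 : 0 ≤ (‖(a : Q) - (b : Q)‖ - ε) ^ 2 / (2 * ε) := by positivity
    have h4 : (‖(a : Q) - (b : Q)‖ - ε) ^ 2 / (2 * ε) =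
        ‖(a : Q) - (b : Q)‖ ^ 2 / 2 / ε + ε / 2 - ‖(a : Q) - (b : Q)‖ := by
      field_simp
      ring
    rw [h4] at h3
    linarith
  have hm' : (0 : ℝ) < m := by exact_mod_cast hm
  have mom := moment m m x
  have i0 : ∫ z, kk m m x z ∂mu = Im m := (kr_int m x).2
  have I0 := (kr_int m x).1
  have m1 : ∫ z, (1 - ip x.1 z.1) * kr m x z ∂mu ≤ 3 / m * Im m := by
    have h := mom.1
    rw [i0] at h
    have h' : (m : ℝ) * ∫ z, (1 - ip x.1 z.1) * kr m x z ∂mu ≤ 3 * Im m := h
    rw [div_mul_eq_mul_div, le_div_iff₀ hm']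
    linarith
  have m2 : ∫ z, (1 - ip x.2 z.2) * kr m x z ∂mu ≤ 3 / m * Im m := by
    have h := mom.2
    rw [i0] at h
    have h' : (m : ℝ) * ∫ z, (1 - ip x.2 z.2) * kr m x z ∂mu ≤ 3 * Im m := h
    rw [div_mul_eq_mul_div, le_div_iff₀ hm']
    linarith
  have hle : ∫ z, dd x z * kr m x z ∂mu ≤ ∫ z, (ε * kr m x z +
      (1 / ε) * ((1 - ip x.1 z.1) * kr m x z) + (1 / ε) * ((1 - ip x.2 z.2) * kr m x z)) ∂mu := by
    apply integral_mono (hcont _ (hd.mul hk))
    · apply hcont
      exact ((continuous_const.mul hk).add (continuous_const.mul ((continuous_const.sub hc1).mul hk))).add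
        (continuous_const.mul ((continuous_const.sub hc2).mul hk))
    · intro z
      have hk0 : 0 ≤ kr m x z := (kk_props m m).1 x z
      have h1 := hd1 x.1 z.1
      have h2 := hd1 x.2 z.2
      have h3 : dd x z ≤ ε + (1 / ε) * (1 - ip x.1 z.1) + (1 / ε) * (1 - ip x.2 z.2) := by
        unfold dd
        have e1 : (1 - ip x.1 z.1) / ε = (1 / ε) * (1 - ip x.1 z.1) := by ring
        have e2 : (1 - ip x.2 z.2) / ε = (1 / ε) * (1 - ip x.2 z.2) := by ring
        rw [e1] at h1
        rw [e2] at h2
        linarith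
      have h4 := mul_le_mul_of_nonneg_right h3 hk0
      calc dd x z * kr m x z ≤ _ := h4
        _ = _ := by ring
  rw [integral_add, integral_add, integral_const_mul, integral_const_mul, integral_const_mul] at hle
  · have i1 : ∫ z, kr m x z ∂mu = Im m := (kr_int m x).2
    rw [i1] at hle
    have hε' : 0 ≤ 1 / ε := by positivity
    have n1 := mul_le_mul_of_nonneg_left m1 hε'
    have n2 := mul_le_mul_of_nonneg_left m2 hε'
    have e : (ε + 6 / (m * ε)) * Im m = ε * Im m + 1 / ε * (3 / m * Im m) + 1 / ε * (3 / m * Im m) := by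
      field_simp
      ring
    rw [e]
    linarith
  · exact hcont _ (continuous_const.mul hk)
  · exact hcont _ (continuous_const.mul ((continuous_const.sub hc1).mul hk))
  · exact hcont _ ((continuous_const.mul hk).add (continuous_const.mul ((continuous_const.sub hc1).mul hk)))
  · exact hcont _ (continuous_const.mul ((continuous_const.sub hc2).mul hk))

end FPM
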