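import Pool.Agent.Helper427.FPM.Defs
import Pool.Agent.Helper427.FPM.P_nrm_inc
import Pool.Agent.Helper427.FPM.P_sm_cont

open scoped Quaternion ContDiff
open MeasureTheory

namespace FPM



theorem sm_lip (f : M → ℝ) (hf : Sm f) : ∃ L : ℝ, 0 ≤ L ∧ ∀ x y, |f x - f y| ≤ L * dd x y := by
  have hK : IsCompact (Set.range inc) := by
    have hS : IsCompact (Metric.sphere (0 : Q) 1) := isCompact_sphere _ _
    have h1 : Set.range inc ⊆ (Metric.sphere (0 : Q) 1) ×ˢ (Metric.sphere (0 : Q) 1) := by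
      rintro _ ⟨x, rfl⟩
      exact ⟨x.1.2, x.2.2⟩
    have h2 : (Metric.sphere (0 : Q) 1) ×ˢ (Metric.sphere (0 : Q) 1) ⊆ Set.range inc := by
      rintro ⟨a, b⟩ ⟨ha, hb⟩
      exact ⟨(⟨a, ha⟩, ⟨b, hb⟩), rfl⟩
    rw [Set.Subset.antisymm h1 h2]
    exact hS.prod hS
  have hL : LocallyLipschitzOn (Set.range inc) (fun x => f (nrm x)) := by
    rintro _ ⟨x, rfl⟩
    have h1 : ContDiffAt ℝ 1 (fun x => f (nrm x)) (inc x) :=
      (hf.contDiffAt (nrm_inc.2.mem_nhds (nrm_inc.1 x).2)).of_le (by exact_mod_cast le_top)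
    obtain ⟨K, t, ht, hKt⟩ := h1.exists_lipschitzOnWith
    exact ⟨K, t, mem_nhdsWithin_of_mem_nhds ht, hKt⟩
  obtain ⟨K, hK'⟩ := hL.exists_lipschitzOnWith_of_compact hK
  refine ⟨K, K.2, fun x y => ?_⟩
  have h1 := hK'.dist_le_mul (inc x) ⟨x, rfl⟩ (inc y) ⟨y, rfl⟩
  simp only [(nrm_inc.1 x).1, (nrm_inc.1 y).1] at h1
  rw [Real.dist_eq] at h1
  refine h1.trans (mul_le_mul_of_nonneg_left ?_ K.2)
  rw [Prod.dist_eq, dist_eq_norm, dist_eq_norm]
  unfold dd inc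
  exact max_le (le_add_of_nonneg_right (norm_nonneg _)) (le_add_of_nonneg_left (norm_nonneg _))

end FPM
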