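import Pool.Agent.Helper427.FPM.Defs
import Pool.Agent.Helper427.FPM.P_mu_prob
import Pool.Agent.Helper427.FPM.P_sm_cont
import Pool.Agent.Helper427.FPM.P_sm_lip
import Pool.Agent.Helper427.FPM.P_kk_props
import Pool.Agent.Helper427.FPM.P_kr_int
import Pool.Agent.Helper427.FPM.P_kr_bound

open scoped Quaternion ContDiff
open MeasureTheory

namespace FPM



theorem Jm_tendsto (u : M → ℝ) (hu : Sm u) :
    Filter.Tendsto (fun m => n2 (fun x => Jm m u x - u x)) Filter.atTop (nhds 0) := by
  have hprob := mu_prob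
  obtain ⟨L, hL0, hL⟩ := sm_lip u hu
  have hcu := sm_cont u hu
  have hint : ∀ g : M → ℝ, Continuous g → Integrable g mu := fun g hg =>
    hg.integrable_of_hasCompactSupport (HasCompactSupport.of_compactSpace _)
  have hkc : ∀ (m : ℕ) (x : M), Continuous (fun z => kr m x z) := by
    intro m x
    exact (kk_props m m).2.2.1.comp (Continuous.prodMk continuous_const continuous_id)
  have hk0 : ∀ (m : ℕ) (x z : M), 0 ≤ kr m x z := fun m x z => (kk_props m m).1 x z
  have hdc : ∀ x : M, Continuous (fun z => dd x z) := by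
    intro x
    unfold dd
    fun_prop
  have hpt : ∀ (m : ℕ), 1 ≤ m → ∀ x, |Jm m u x - u x| ≤ 7 * L / √m := by
    intro m hm x
    have hm0 : (0 : ℝ) < m := by exact_mod_cast hm
    have hsm : 0 < √(m : ℝ) := Real.sqrt_pos.2 hm0
    obtain ⟨hI, hI2⟩ := kr_int m x
    have hb := kr_bound m hm (1 / √m) (by positivity) x
    have hbb : (1 / √(m : ℝ) + 6 / (m * (1 / √m))) = 7 / √m := by
      have h1 : (m : ℝ) = √m * √m := (Real.mul_self_sqrt hm0.le).symm
      have h2 : (m : ℝ) * (1 / √m) = √m := by
        nth_rewrite 1 [h1]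
        field_simp
      rw [h2]; ring
    rw [hbb] at hb
    have e1 : Jm m u x - u x = (Im m)⁻¹ * ∫ z, kr m x z * (u z - u x) ∂mu := by
      have h3 : ∫ z, kr m x z * (u z - u x) ∂mu = (∫ z, kr m x z * u z ∂mu) - Im m * u x := by
        rw [← hI2, ← integral_mul_const, ← integral_sub]
        · congr 1
          funext z
          ring
        · exact hint _ ((hkc m x).mul hcu)
        · exact hint _ ((hkc m x).mul continuous_const)
      rw [h3]
      unfold Jm
      field_simp
    have e2 : |∫ z, kr m x z * (u z - u x) ∂mu| ≤ L * ∫ z, dd x z * kr m x z ∂mu := by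
      rw [← integral_const_mul]
      refine (abs_integral_le_integral_abs).trans ?_
      apply integral_mono
      · exact hint _ ((hkc m x).mul (hcu.sub continuous_const)).abs
      · exact hint _ (continuous_const.mul ((hdc x).mul (hkc m x)))
      · intro z
        show |kr m x z * (u z - u x)| ≤ L * (dd x z * kr m x z)
        rw [abs_mul, abs_of_nonneg (hk0 m x z), abs_sub_comm]
        calc kr m x z * |u x - u z| ≤ kr m x z * (L * dd x z) :=
              mul_le_mul_of_nonneg_left (hL x z) (hk0 m x z)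
          _ = _ := by ring
    rw [e1, abs_mul, abs_of_pos (inv_pos.2 hI)]
    calc (Im m)⁻¹ * |∫ z, kr m x z * (u z - u x) ∂mu| ≤ (Im m)⁻¹ * (L * (7 / √m * Im m)) := by
          apply mul_le_mul_of_nonneg_left _ (inv_pos.2 hI).le
          exact e2.trans (mul_le_mul_of_nonneg_left hb hL0)
      _ = 7 * L / √m := by field_simp
  have hn2 : ∀ m : ℕ, 1 ≤ m → n2 (fun x => Jm m u x - u x) ≤ (7 * L) ^ 2 / m := by
    intro m hm
    have hm0 : (0 : ℝ) < m := by exact_mod_cast hm
    unfold n2
    have h1 : ∫ x, (Jm m u x - u x) ^ 2 ∂mu ≤ ∫ x : M, (7 * L) ^ 2 / m ∂mu := by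
      apply integral_mono_of_nonneg
      · exact Filter.Eventually.of_forall (fun x => sq_nonneg _)
      · exact integrable_const _
      · refine Filter.Eventually.of_forall (fun x => ?_)
        show (Jm m u x - u x) ^ 2 ≤ (7 * L) ^ 2 / m
        have h2 := hpt m hm x
        rw [← sq_abs]
        calc |Jm m u x - u x| ^ 2 ≤ (7 * L / √m) ^ 2 := by gcongr
          _ = (7 * L) ^ 2 / m := by rw [div_pow, Real.sq_sqrt hm0.le]
    rw [integral_const] at h1
    simpa using h1
  have hlim : Filter.Tendsto (fun m : ℕ => (7 * L) ^ 2 / (m : ℝ)) Filter.atTop (nhds 0) :=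
    tendsto_const_div_atTop_nhds_zero_nat _
  refine tendsto_of_tendsto_of_tendsto_of_le_of_le' tendsto_const_nhds hlim ?_ ?_
  · exact Filter.Eventually.of_forall (fun m => integral_nonneg (fun x => sq_nonneg _))
  · exact Filter.eventually_atTop.2 ⟨1, hn2⟩

end FPM
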