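import Pool.Agent.Helper427.FPM.Defs

open scoped Quaternion ContDiff
open MeasureTheory

namespace FPM



theorem sm_inv (f : M → ℝ) (hf : Sm f) (h : ∀ x, f x ≠ 0) : Sm (fun x => (f x)⁻¹) := by
  unfold Sm at *
  exact ContDiffOn.inv hf (fun x _ => h (nrm x))

end FPM
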