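import Pool.Agent.Helper427.FPM.Defs

open scoped Quaternion ContDiff
open MeasureTheory

namespace FPM



theorem sm_sqrt (f : M → ℝ) (hf : Sm f) (h : ∀ x, 0 < f x) : Sm (fun x => Real.sqrt (f x)) := by
  have h1 : ContDiffOn ℝ ∞ (fun x => f (nrm x)) Om := hf
  exact ContDiffOn.sqrt h1 (fun x _ => (h _).ne')

end FPM
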