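import Pool.Agent.Helper427.FPM.Defs
import Pool.Agent.Helper427.FPM.P_mu_prob
import Pool.Agent.Helper427.FPM.P_sm_cont
import Pool.Agent.Helper427.FPM.P_sm_lip
import Pool.Agent.Helper427.FPM.P_kk_props
import Pool.Agent.Helper427.FPM.P_kr_int
import Pool.Agent.Helper427.FPM.P_kr_bound
import Pool.Agent.Helper427.FPM.P_schur

open scoped Quaternion ContDiff
open MeasureTheory

namespace FPM



theorem cm_bdd (f : M → ℝ) (hf : Continuous f) : ∃ B : ℝ, 0 ≤ B ∧ ∀ x, |f x| ≤ B := by
  obtain ⟨B, hB⟩ := (isCompact_univ (X := M)).exists_bound_of_continuousOn hf.continuousOn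
  refine ⟨max B 0, le_max_right _ _, fun x => ?_⟩
  have := hB x (Set.mem_univ _)
  rw [Real.norm_eq_abs] at this
  exact this.trans (le_max_left _ _)

theorem cm_int (f : M → ℝ) (hf : Continuous f) : Integrable f mu := by
  haveI := mu_prob
  exact hf.integrable_of_hasCompactSupport (HasCompactSupport.of_compactSpace f)

theorem cm_krc (m : ℕ) : Continuous (fun p : M × M => kr m p.1 p.2) := (kk_props m m).2.2.1

theorem cm_krx (m : ℕ) (x : M) : Continuous (fun z => kr m x z) :=
  (cm_krc m).comp (by fun_prop : Continuous (fun z : M => (x, z)))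

theorem cm_eq (q : M → ℝ) (hq : Continuous q) (m : ℕ) (u : M → ℝ) (hu : Continuous u) (x : M) :
    q x * Jm m u x - Jm m (fun z => q z * u z) x =
      ∫ z, ((Im m)⁻¹ * ((q x - q z) * kr m x z)) * u z ∂mu := by
  have h1 : Integrable (fun z => q x * ((Im m)⁻¹ * (kr m x z * u z))) mu := by
    apply cm_int
    have := cm_krx m x
    fun_prop
  have h2 : Integrable (fun z => (Im m)⁻¹ * (kr m x z * (q z * u z))) mu := by
    apply cm_int
    have := cm_krx m x
    fun_prop
  unfold Jm
  rw [← integral_const_mul, ← integral_const_mul, ← integral_const_mul, ← integral_sub h1 h2]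
  refine integral_congr_ae (Filter.Eventually.of_forall fun z => ?_)
  simp only []
  ring

theorem cm_k0 (m : ℕ) (x z : M) : 0 ≤ kr m x z := (kk_props m m).1 x z

theorem cm_ksym (m : ℕ) (x z : M) : kr m x z = kr m z x := (kk_props m m).2.1 x z

theorem cm_first (q : M → ℝ) (hq : Continuous q) (B : ℝ) (hB0 : 0 ≤ B) (hB : ∀ x, |q x| ≤ B)
    (m : ℕ) (x : M) :
    ∫ z, |(Im m)⁻¹ * ((q x - q z) * kr m x z)| ∂mu ≤ 2 * B := by
  obtain ⟨hI, hI2⟩ := kr_int m x
  have h1 : ∀ z, |(Im m)⁻¹ * ((q x - q z) * kr m x z)| ≤ ((Im m)⁻¹ * (2 * B)) * kr m x z := by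
    intro z
    rw [abs_mul, abs_mul, abs_of_pos (inv_pos.mpr hI), abs_of_nonneg (cm_k0 m x z), mul_assoc]
    have h2 : |q x - q z| ≤ 2 * B := by
      have := abs_sub (q x) (q z)
      linarith [hB x, hB z]
    have h3 := mul_le_mul_of_nonneg_right h2 (cm_k0 m x z)
    exact mul_le_mul_of_nonneg_left h3 (inv_pos.mpr hI).le
  have h4 : ∫ z, |(Im m)⁻¹ * ((q x - q z) * kr m x z)| ∂mu ≤
      ∫ z, ((Im m)⁻¹ * (2 * B)) * kr m x z ∂mu := by
    apply integral_mono
    · apply cm_int
      have := cm_krx m x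
      fun_prop
    · apply cm_int
      have := cm_krx m x
      fun_prop
    · exact h1
  rw [integral_const_mul, hI2] at h4
  have h5 : (Im m)⁻¹ * (2 * B) * Im m = 2 * B := by
    field_simp
  linarith

theorem cm_second (q : M → ℝ) (hqc : Continuous q) (L : ℝ) (hL0 : 0 ≤ L)
    (hL : ∀ x y, |q x - q y| ≤ L * dd x y)
    (u : M → ℝ) (hu : Continuous u) (U : ℝ) (hU0 : 0 ≤ U) (hU : ∀ x, |u x| ≤ U)
    (m : ℕ) (hm : 1 ≤ m) (ε : ℝ) (hε : 0 < ε) (x : M) :
    |q x * Jm m u x - Jm m (fun z => q z * u z) x| ≤ U * L * (ε + 6 / (m * ε)) := by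
  obtain ⟨hI, hI2⟩ := kr_int m x
  have hb := kr_bound m hm ε hε x
  rw [cm_eq q hqc m u hu x]
  have hdd : Continuous (fun z => dd x z) := by
    unfold dd
    fun_prop
  have h1 : ∀ z, |((Im m)⁻¹ * ((q x - q z) * kr m x z)) * u z| ≤
      ((Im m)⁻¹ * (U * L)) * (dd x z * kr m x z) := by
    intro z
    rw [abs_mul, abs_mul, abs_mul, abs_of_pos (inv_pos.mpr hI), abs_of_nonneg (cm_k0 m x z)]
    have hdd0 : 0 ≤ dd x z := by unfold dd; positivity
    have h2 : |q x - q z| * |u z| ≤ (L * dd x z) * U :=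
      mul_le_mul (hL x z) (hU z) (abs_nonneg _) (mul_nonneg hL0 hdd0)
    have h3 := mul_le_mul_of_nonneg_right h2 (cm_k0 m x z)
    have h4 := mul_le_mul_of_nonneg_left h3 (inv_pos.mpr hI).le
    calc (Im m)⁻¹ * (|q x - q z| * kr m x z) * |u z|
        = (Im m)⁻¹ * (|q x - q z| * |u z| * kr m x z) := by ring
      _ ≤ (Im m)⁻¹ * (L * dd x z * U * kr m x z) := h4
      _ = (Im m)⁻¹ * (U * L) * (dd x z * kr m x z) := by ring
  calc |∫ z, ((Im m)⁻¹ * ((q x - q z) * kr m x z)) * u z ∂mu|
      ≤ ∫ z, |((Im m)⁻¹ * ((q x - q z) * kr m x z)) * u z| ∂mu := abs_integral_le_integral_abs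
    _ ≤ ∫ z, ((Im m)⁻¹ * (U * L)) * (dd x z * kr m x z) ∂mu := by
        apply integral_mono
        · apply cm_int
          have := cm_krx m x
          fun_prop
        · apply cm_int
          have := cm_krx m x
          fun_prop
        · exact h1
    _ = ((Im m)⁻¹ * (U * L)) * ∫ z, (dd x z * kr m x z) ∂mu := by rw [integral_const_mul]
    _ ≤ ((Im m)⁻¹ * (U * L)) * ((ε + 6 / (m * ε)) * Im m) := by
        apply mul_le_mul_of_nonneg_left hb
        have := (inv_pos.mpr hI).le
        positivity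
    _ = U * L * (ε + 6 / (m * ε)) := by
        field_simp

theorem comm_mul (q : M → ℝ) (hq : Sm q) : ∃ C : ℝ, 0 ≤ C ∧
    (∀ m, 4 ≤ m → ∀ u, Continuous u →
      n2 (fun x => q x * Jm m u x - Jm m (fun z => q z * u z) x) ≤ C * n2 u) ∧
    (∀ u, Continuous u → Filter.Tendsto
      (fun m => n2 (fun x => q x * Jm m u x - Jm m (fun z => q z * u z) x))
      Filter.atTop (nhds 0)) := by
  haveI := mu_prob
  have hqc := sm_cont q hq
  obtain ⟨B, hB0, hB⟩ := cm_bdd q hqc
  obtain ⟨L, hL0, hL⟩ := sm_lip q hq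
  refine ⟨(2 * B) ^ 2, by positivity, ?_, ?_⟩
  · intro m hm u hu
    have h := schur (fun x z => (Im m)⁻¹ * ((q x - q z) * kr m x z)) ?_ (2 * B) ?_ ?_ u hu
    · have he : (fun x => q x * Jm m u x - Jm m (fun z => q z * u z) x) =
          (fun x => ∫ z, ((Im m)⁻¹ * ((q x - q z) * kr m x z)) * u z ∂mu) := by
        funext x
        exact cm_eq q hqc m u hu x
      rw [he]
      exact h
    · have := cm_krc m
      fun_prop
    · intro x
      exact cm_first q hqc B hB0 hB m x
    · intro z
      have h2 := cm_first q hqc B hB0 hB m z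
      have he : (fun x => |(Im m)⁻¹ * ((q x - q z) * kr m x z)|) =
          (fun x => |(Im m)⁻¹ * ((q z - q x) * kr m z x)|) := by
        funext x
        rw [cm_ksym m x z, ← abs_neg]
        congr 1
        ring
      simp only [he]
      exact h2
  · intro u hu
    obtain ⟨U, hU0, hU⟩ := cm_bdd u hu
    have key : ∀ m : ℕ, 1 ≤ m →
        n2 (fun x => q x * Jm m u x - Jm m (fun z => q z * u z) x) ≤
          (49 * (U * L) ^ 2) / (m : ℝ) := by
      intro m hm
      have hmR : (0 : ℝ) < m := by exact_mod_cast hm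
      have hs : 0 < Real.sqrt m := Real.sqrt_pos.mpr hmR
      have hss : Real.sqrt m * Real.sqrt m = m := Real.mul_self_sqrt hmR.le
      have hpt : ∀ x, (q x * Jm m u x - Jm m (fun z => q z * u z) x) ^ 2 ≤
          (49 * (U * L) ^ 2) / (m : ℝ) := by
        intro x
        have h := cm_second q hqc L hL0 hL u hu U hU0 hU m hm (1 / Real.sqrt m)
          (by positivity) x
        have he : 1 / Real.sqrt m + 6 / (m * (1 / Real.sqrt m)) = 7 / Real.sqrt m := by
          have hne : Real.sqrt m ≠ 0 := hs.ne'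
          have h7 : 6 / ((m : ℝ) * (1 / Real.sqrt m)) = 6 / Real.sqrt m := by
            congr 1
            rw [mul_one_div, div_eq_iff hne, hss]
          rw [h7]
          ring
        rw [he] at h
        have h8 := pow_le_pow_left₀ (abs_nonneg _) h 2
        rw [sq_abs] at h8
        calc _ ≤ _ := h8
          _ = (49 * (U * L) ^ 2) / (Real.sqrt m * Real.sqrt m) := by
              rw [mul_pow, div_pow]
              field_simp
              norm_num
          _ = _ := by rw [hss]
      unfold n2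
      calc ∫ x, (q x * Jm m u x - Jm m (fun z => q z * u z) x) ^ 2 ∂mu
          ≤ ∫ _x : M, (49 * (U * L) ^ 2) / (m : ℝ) ∂mu := by
            apply integral_mono_of_nonneg
            · exact Filter.Eventually.of_forall fun x => sq_nonneg _
            · exact integrable_const _
            · exact Filter.Eventually.of_forall hpt
        _ = _ := by simp
    refine squeeze_zero' (g := fun m : ℕ => (49 * (U * L) ^ 2) / (m : ℝ)) ?_ ?_ ?_
    · exact Filter.Eventually.of_forall fun m => integral_nonneg fun x => sq_nonneg _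
    · filter_upwards [Filter.eventually_ge_atTop 1] with m hm
      exact key m hm
    · exact tendsto_const_div_atTop_nhds_zero_nat _

end FPM
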