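import Pool.Agent.Helper427.FPM.Defs
import Pool.Agent.Helper427.FPM.P_dq_props
import Pool.Agent.Helper427.FPM.P_kk_props

open scoped Quaternion ContDiff
open MeasureTheory

namespace FPM



theorem dkr_props (i : Fin 6) (m : ℕ) : (∀ x z, dkr i m z x = - dkr i m x z) ∧
    Continuous (fun p : M × M => dkr i m p.1 p.2) := by
  have hd := dq_props.1
  have hk := fun a b => (kk_props a b).2.1
  have hc := fun a b => (kk_props a b).2.2.1
  have hq1 : ∀ i : Fin 3, Continuous (fun p : M × M => dq i p.1.1 p.2.1) := by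
    intro i
    unfold dq
    have h1 : Continuous (fun p : M × M => qu i * ((p.1.1 : Sph) : Q)) :=
      continuous_const.mul (continuous_subtype_val.comp (continuous_fst.comp continuous_fst))
    have h2 : Continuous (fun p : M × M => ((p.2.1 : Sph) : Q)) :=
      continuous_subtype_val.comp (continuous_fst.comp continuous_snd)
    exact h1.inner h2
  have hq2 : ∀ i : Fin 3, Continuous (fun p : M × M => dq i p.1.2 p.2.2) := by
    intro i
    unfold dq
    have h1 : Continuous (fun p : M × M => qu i * ((p.1.2 : Sph) : Q)) :=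
      continuous_const.mul (continuous_subtype_val.comp (continuous_snd.comp continuous_fst))
    have h2 : Continuous (fun p : M × M => ((p.2.2 : Sph) : Q)) :=
      continuous_subtype_val.comp (continuous_snd.comp continuous_snd)
    exact h1.inner h2
  constructor
  · intro x z
    fin_cases i
    · show (m : ℝ) * kk (m-1) m z x * dq 0 z.1 x.1 = - ((m : ℝ) * kk (m-1) m x z * dq 0 x.1 z.1)
      rw [hd 0 x.1 z.1, hk (m-1) m z x]; ring
    · show (m : ℝ) * kk (m-1) m z x * dq 1 z.1 x.1 = - ((m : ℝ) * kk (m-1) m x z * dq 1 x.1 z.1)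
      rw [hd 1 x.1 z.1, hk (m-1) m z x]; ring
    · show (m : ℝ) * kk (m-1) m z x * dq 2 z.1 x.1 = - ((m : ℝ) * kk (m-1) m x z * dq 2 x.1 z.1)
      rw [hd 2 x.1 z.1, hk (m-1) m z x]; ring
    · show (m : ℝ) * kk m (m-1) z x * dq 0 z.2 x.2 = - ((m : ℝ) * kk m (m-1) x z * dq 0 x.2 z.2)
      rw [hd 0 x.2 z.2, hk m (m-1) z x]; ring
    · show (m : ℝ) * kk m (m-1) z x * dq 1 z.2 x.2 = - ((m : ℝ) * kk m (m-1) x z * dq 1 x.2 z.2)
      rw [hd 1 x.2 z.2, hk m (m-1) z x]; ring
    · show (m : ℝ) * kk m (m-1) z x * dq 2 z.2 x.2 = - ((m : ℝ) * kk m (m-1) x z * dq 2 x.2 z.2)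
      rw [hd 2 x.2 z.2, hk m (m-1) z x]; ring
  · fin_cases i
    · exact (continuous_const.mul (hc (m-1) m)).mul (hq1 0)
    · exact (continuous_const.mul (hc (m-1) m)).mul (hq1 1)
    · exact (continuous_const.mul (hc (m-1) m)).mul (hq1 2)
    · exact (continuous_const.mul (hc m (m-1))).mul (hq2 0)
    · exact (continuous_const.mul (hc m (m-1))).mul (hq2 1)
    · exact (continuous_const.mul (hc m (m-1))).mul (hq2 2)

end FPM
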