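import Pool.Agent.Helper427.FPM.Defs
import Pool.Agent.Helper427.FPM.P_mu_prob
import Pool.Agent.Helper427.FPM.P_ip_props
import Pool.Agent.Helper427.FPM.P_kk_props
import Pool.Agent.Helper427.FPM.P_kr_int
import Pool.Agent.Helper427.FPM.P_moment

open scoped Quaternion ContDiff
open MeasureTheory

namespace FPM



theorem ratio_intk (a b : ℕ) (x : M) : Integrable (fun z => kk a b x z) mu := by
  haveI := mu_prob
  have hc : Continuous (fun z : M => kk a b x z) :=
    (kk_props a b).2.2.1.comp (Continuous.prodMk continuous_const continuous_id)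
  exact hc.integrable_of_hasCompactSupport (HasCompactSupport.of_compactSpace _)

theorem ratio_cip1 (x : M) : Continuous (fun z : M => ip x.1 z.1) := by
  unfold ip
  exact Continuous.inner continuous_const (continuous_subtype_val.comp continuous_fst)

theorem ratio_cip2 (x : M) : Continuous (fun z : M => ip x.2 z.2) := by
  unfold ip
  exact Continuous.inner continuous_const (continuous_subtype_val.comp continuous_snd)

theorem ratio_ck (a b : ℕ) (x : M) : Continuous (fun z : M => kk a b x z) :=
    (kk_props a b).2.2.1.comp (Continuous.prodMk continuous_const continuous_id)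

theorem ratio_arith (m : ℕ) (hm : 4 ≤ m) (J A I : ℝ) (hJ : 0 ≤ J)
    (h1 : ((m - 1 : ℕ) : ℝ) * A ≤ 3 * J) (h2 : 2 * J = A + I) : J ≤ I := by
  have h3 : (3 : ℝ) ≤ ((m - 1 : ℕ) : ℝ) := by
    have : 3 ≤ m - 1 := by omega
    exact_mod_cast this
  have h4 : A ≤ J := by
    by_contra hlt
    push Not at hlt
    have : (3:ℝ) * J < ((m - 1 : ℕ) : ℝ) * A := by
      calc (3:ℝ) * J < 3 * A := by linarith
        _ ≤ ((m - 1 : ℕ) : ℝ) * A := mul_le_mul_of_nonneg_right h3 (by linarith)
    linarith
  linarith

theorem ratio (m : ℕ) (hm : 4 ≤ m) (x : M) :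
    ∫ z, kk (m-1) m x z ∂mu ≤ Im m ∧ ∫ z, kk m (m-1) x z ∂mu ≤ Im m := by
  haveI := mu_prob
  have hI := (kr_int m x).2
  obtain ⟨j, rfl⟩ : ∃ j, m = j + 1 := ⟨m - 1, by omega⟩
  simp only [Nat.add_sub_cancel]
  constructor
  · apply ratio_arith (j + 1) hm _ (∫ z, (1 - ip x.1 z.1) * kk j (j + 1) x z ∂mu) _
      (integral_nonneg fun z => (kk_props _ _).1 x z)
    · have := (moment j (j + 1) x).1
      simpa using this
    · rw [← hI, ← integral_add, ← integral_const_mul]
      · apply integral_congr_ae
        filter_upwards with z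
        simp only [kr, kk]
        ring
      · have hc : Continuous (fun z : M => (1 - ip x.1 z.1) * kk j (j + 1) x z) :=
          (continuous_const.sub (ratio_cip1 x)).mul (ratio_ck _ _ x)
        exact hc.integrable_of_hasCompactSupport (HasCompactSupport.of_compactSpace _)
      · exact ratio_intk _ _ x
  · apply ratio_arith (j + 1) hm _ (∫ z, (1 - ip x.2 z.2) * kk (j + 1) j x z ∂mu) _
      (integral_nonneg fun z => (kk_props _ _).1 x z)
    · have := (moment (j + 1) j x).2
      simpa using this
    · rw [← hI, ← integral_add, ← integral_const_mul]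
      · apply integral_congr_ae
        filter_upwards with z
        simp only [kr, kk]
        ring
      · have hc : Continuous (fun z : M => (1 - ip x.2 z.2) * kk (j + 1) j x z) :=
          (continuous_const.sub (ratio_cip2 x)).mul (ratio_ck _ _ x)
        exact hc.integrable_of_hasCompactSupport (HasCompactSupport.of_compactSpace _)
      · exact ratio_intk _ _ x

end FPM
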