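import Pool.Agent.Helper427.FPM.Defs
import Pool.Agent.Helper427.FPM.P_mu_prob
import Pool.Agent.Helper427.FPM.P_ip_props
import Pool.Agent.Helper427.FPM.P_dq_props
import Pool.Agent.Helper427.FPM.P_kk_props
import Pool.Agent.Helper427.FPM.P_dkr_props
import Pool.Agent.Helper427.FPM.P_kr_int
import Pool.Agent.Helper427.FPM.P_moment
import Pool.Agent.Helper427.FPM.P_ratio

open scoped Quaternion ContDiff
open MeasureTheory

namespace FPM



theorem cint_16407 (f : M → ℝ) (hf : Continuous f) : Integrable f mu := by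
  have := mu_prob
  exact hf.integrable_of_hasCompactSupport (HasCompactSupport.of_compactSpace f)

theorem cip1_16407 (x : M) : Continuous fun z : M => ip x.1 z.1 := by
  unfold ip
  exact continuous_const.inner (continuous_subtype_val.comp continuous_fst)

theorem cip2_16407 (x : M) : Continuous fun z : M => ip x.2 z.2 := by
  unfold ip
  exact continuous_const.inner (continuous_subtype_val.comp continuous_snd)

theorem cdq1_16407 (j : Fin 3) (x : M) : Continuous fun z : M => dq j x.1 z.1 := by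
  unfold dq
  exact continuous_const.inner (continuous_subtype_val.comp continuous_fst)

theorem cdq2_16407 (j : Fin 3) (x : M) : Continuous fun z : M => dq j x.2 z.2 := by
  unfold dq
  exact continuous_const.inner (continuous_subtype_val.comp continuous_snd)

theorem ckk_16407 (a b : ℕ) (x : M) : Continuous fun z : M => kk a b x z :=
  (kk_props a b).2.2.1.comp (Continuous.prodMk_right x)

theorem cdd_16407 (x : M) : Continuous fun z : M => dd x z := by
  unfold dd
  exact ((continuous_const.sub (continuous_subtype_val.comp continuous_fst)).norm).add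
    ((continuous_const.sub (continuous_subtype_val.comp continuous_snd)).norm)

theorem num_16407 (m : ℕ) (hm : 4 ≤ m) (A B J I : ℝ) (hA : 0 ≤ A) (h1 : ((m - 1 : ℕ) : ℝ) * A ≤ 3 * J)
    (h2 : (m : ℝ) * B ≤ 3 * J) (h3 : J ≤ I) : (m : ℝ) * (3 * A + B) ≤ 15 * I := by
  have hm' : (4 : ℝ) ≤ m := by exact_mod_cast hm
  have h4 : ((m - 1 : ℕ) : ℝ) = m - 1 := by
    rw [Nat.cast_sub (by omega)]
    simp
  rw [h4] at h1
  have h5 : A ≤ J := by nlinarith
  nlinarith

theorem case1_16407 (j : Fin 3) (m : ℕ) (hm : 4 ≤ m) (x : M) :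
    ∫ z, dd x z * |m * kk (m-1) m x z * dq j x.1 z.1| ∂mu ≤ 15 * Im m := by
  obtain ⟨i1, i2, i3, i4⟩ := ip_props
  obtain ⟨q1, q2, q3⟩ := dq_props
  have hk0 := (kk_props (m-1) m).1
  have ck := ckk_16407 (m-1) m x
  have c1 := cip1_16407 x
  have c2 := cip2_16407 x
  have I1 : Integrable (fun z : M => (1 - ip x.1 z.1) * kk (m-1) m x z) mu :=
    cint_16407 _ ((continuous_const.sub c1).mul ck)
  have I2 : Integrable (fun z : M => (1 - ip x.2 z.2) * kk (m-1) m x z) mu :=
    cint_16407 _ ((continuous_const.sub c2).mul ck)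
  have I0 : Integrable (fun z : M => dd x z * |m * kk (m-1) m x z * dq j x.1 z.1|) mu :=
    cint_16407 _ ((cdd_16407 x).mul (((continuous_const.mul ck).mul (cdq1_16407 j x)).abs))
  have I3 : Integrable (fun z : M => (m : ℝ) * (3 * ((1 - ip x.1 z.1) * kk (m-1) m x z) +
      (1 - ip x.2 z.2) * kk (m-1) m x z)) mu :=
    ((I1.const_mul 3).add I2).const_mul (m : ℝ)
  have hpt : ∀ z, dd x z * |m * kk (m-1) m x z * dq j x.1 z.1| ≤
      m * (3 * ((1 - ip x.1 z.1) * kk (m-1) m x z) + (1 - ip x.2 z.2) * kk (m-1) m x z) := by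
    intro z
    have hk := hk0 x z
    have e1 := i3 x.1 z.1
    have e2 := i3 x.2 z.2
    have e3 := q2 j x.1 z.1
    rw [abs_mul, abs_of_nonneg (by positivity : 0 ≤ (m : ℝ) * kk (m-1) m x z)]
    unfold dd
    generalize ‖(x.1 : Q) - (z.1 : Q)‖ = a at *
    generalize ‖(x.2 : Q) - (z.2 : Q)‖ = b at *
    have ha : 0 ≤ a := (abs_nonneg _).trans e3
    have h1 : (a + b) * |dq j x.1 z.1| ≤ 3 * (1 - ip x.1 z.1) + (1 - ip x.2 z.2) := by
      have hb : 0 ≤ b ∨ b < 0 := le_or_gt 0 b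
      rcases hb with hb | hb
      · have h2 : (a + b) * |dq j x.1 z.1| ≤ (a + b) * a :=
          mul_le_mul_of_nonneg_left e3 (by linarith)
        nlinarith [sq_nonneg (a - b)]
      · have h2 : (a + b) * |dq j x.1 z.1| ≤ a * |dq j x.1 z.1| :=
          mul_le_mul_of_nonneg_right (by linarith) (abs_nonneg _)
        have h3 : a * |dq j x.1 z.1| ≤ a * a := mul_le_mul_of_nonneg_left e3 ha
        nlinarith [sq_nonneg b]
    calc (a + b) * (m * kk (m-1) m x z * |dq j x.1 z.1|) =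
          (m * kk (m-1) m x z) * ((a + b) * |dq j x.1 z.1|) := by ring
      _ ≤ (m * kk (m-1) m x z) * (3 * (1 - ip x.1 z.1) + (1 - ip x.2 z.2)) :=
          mul_le_mul_of_nonneg_left h1 (by positivity)
      _ = _ := by ring
  have h5 := integral_mono I0 I3 hpt
  refine h5.trans ?_
  rw [integral_const_mul]
  have h6 : ∫ z, (3 * ((1 - ip x.1 z.1) * kk (m-1) m x z) + (1 - ip x.2 z.2) * kk (m-1) m x z) ∂mu =
      3 * ∫ z, (1 - ip x.1 z.1) * kk (m-1) m x z ∂mu + ∫ z, (1 - ip x.2 z.2) * kk (m-1) m x z ∂mu := by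
    rw [integral_add (I1.const_mul 3) I2, integral_const_mul]
  obtain ⟨m1, m2⟩ := moment (m-1) m x
  rw [h6]
  refine num_16407 m hm _ _ _ _ ?_ m1 m2 (ratio m hm x).1
  apply integral_nonneg
  intro z
  have := (abs_le.1 (i1 x.1 z.1)).2
  exact mul_nonneg (by linarith) (hk0 x z)

theorem case2_16407 (j : Fin 3) (m : ℕ) (hm : 4 ≤ m) (x : M) :
    ∫ z, dd x z * |m * kk m (m-1) x z * dq j x.2 z.2| ∂mu ≤ 15 * Im m := by
  obtain ⟨i1, i2, i3, i4⟩ := ip_props
  obtain ⟨q1, q2, q3⟩ := dq_props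
  have hk0 := (kk_props m (m-1)).1
  have ck := ckk_16407 m (m-1) x
  have c1 := cip1_16407 x
  have c2 := cip2_16407 x
  have I1 : Integrable (fun z : M => (1 - ip x.1 z.1) * kk m (m-1) x z) mu :=
    cint_16407 _ ((continuous_const.sub c1).mul ck)
  have I2 : Integrable (fun z : M => (1 - ip x.2 z.2) * kk m (m-1) x z) mu :=
    cint_16407 _ ((continuous_const.sub c2).mul ck)
  have I0 : Integrable (fun z : M => dd x z * |m * kk m (m-1) x z * dq j x.2 z.2|) mu :=
    cint_16407 _ ((cdd_16407 x).mul (((continuous_const.mul ck).mul (cdq2_16407 j x)).abs))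
  have I3 : Integrable (fun z : M => (m : ℝ) * (3 * ((1 - ip x.2 z.2) * kk m (m-1) x z) +
      (1 - ip x.1 z.1) * kk m (m-1) x z)) mu :=
    ((I2.const_mul 3).add I1).const_mul (m : ℝ)
  have hpt : ∀ z, dd x z * |m * kk m (m-1) x z * dq j x.2 z.2| ≤
      m * (3 * ((1 - ip x.2 z.2) * kk m (m-1) x z) + (1 - ip x.1 z.1) * kk m (m-1) x z) := by
    intro z
    have hk := hk0 x z
    have e1 := i3 x.1 z.1
    have e2 := i3 x.2 z.2
    have e3 := q2 j x.2 z.2
    rw [abs_mul, abs_of_nonneg (by positivity : 0 ≤ (m : ℝ) * kk m (m-1) x z)]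
    unfold dd
    generalize ‖(x.1 : Q) - (z.1 : Q)‖ = a at *
    generalize ‖(x.2 : Q) - (z.2 : Q)‖ = b at *
    have hb : 0 ≤ b := (abs_nonneg _).trans e3
    have h1 : (a + b) * |dq j x.2 z.2| ≤ 3 * (1 - ip x.2 z.2) + (1 - ip x.1 z.1) := by
      have ha : 0 ≤ a ∨ a < 0 := le_or_gt 0 a
      rcases ha with ha | ha
      · have h2 : (a + b) * |dq j x.2 z.2| ≤ (a + b) * b :=
          mul_le_mul_of_nonneg_left e3 (by linarith)
        nlinarith [sq_nonneg (a - b)]
      · have h2 : (a + b) * |dq j x.2 z.2| ≤ b * |dq j x.2 z.2| :=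
          mul_le_mul_of_nonneg_right (by linarith) (abs_nonneg _)
        have h3 : b * |dq j x.2 z.2| ≤ b * b := mul_le_mul_of_nonneg_left e3 hb
        nlinarith [sq_nonneg a]
    calc (a + b) * (m * kk m (m-1) x z * |dq j x.2 z.2|) =
          (m * kk m (m-1) x z) * ((a + b) * |dq j x.2 z.2|) := by ring
      _ ≤ (m * kk m (m-1) x z) * (3 * (1 - ip x.2 z.2) + (1 - ip x.1 z.1)) :=
          mul_le_mul_of_nonneg_left h1 (by positivity)
      _ = _ := by ring
  have h5 := integral_mono I0 I3 hpt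
  refine h5.trans ?_
  rw [integral_const_mul]
  have h6 : ∫ z, (3 * ((1 - ip x.2 z.2) * kk m (m-1) x z) + (1 - ip x.1 z.1) * kk m (m-1) x z) ∂mu =
      3 * ∫ z, (1 - ip x.2 z.2) * kk m (m-1) x z ∂mu + ∫ z, (1 - ip x.1 z.1) * kk m (m-1) x z ∂mu := by
    rw [integral_add (I2.const_mul 3) I1, integral_const_mul]
  obtain ⟨m1, m2⟩ := moment m (m-1) x
  rw [h6]
  refine num_16407 m hm _ _ _ _ ?_ m2 m1 (ratio m hm x).2
  apply integral_nonneg
  intro z
  have := (abs_le.1 (i1 x.2 z.2)).2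
  exact mul_nonneg (by linarith) (hk0 x z)

theorem dkr_bound (i : Fin 6) (m : ℕ) (hm : 4 ≤ m) (x : M) :
    ∫ z, dd x z * |dkr i m x z| ∂mu ≤ 15 * Im m := by
  fin_cases i
  · exact case1_16407 0 m hm x
  · exact case1_16407 1 m hm x
  · exact case1_16407 2 m hm x
  · exact case2_16407 0 m hm x
  · exact case2_16407 1 m hm x
  · exact case2_16407 2 m hm x

end FPM
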