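import Pool.Agent.Helper427.FPM.Defs
import Pool.Agent.Helper427.FPM.P_mu_prob
import Pool.Agent.Helper427.FPM.P_sm_cont
import Pool.Agent.Helper427.FPM.P_sm_lip
import Pool.Agent.Helper427.FPM.P_E_sm
import Pool.Agent.Helper427.FPM.P_kk_props
import Pool.Agent.Helper427.FPM.P_dkr_props
import Pool.Agent.Helper427.FPM.P_kr_int
import Pool.Agent.Helper427.FPM.P_E_Jm_comm
import Pool.Agent.Helper427.FPM.P_dkr_bound
import Pool.Agent.Helper427.FPM.P_schur
import Pool.Agent.Helper427.FPM.P_comm_mul
import Pool.Agent.Helper427.FPM.P_comm_E_form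

open scoped Quaternion ContDiff
open MeasureTheory

namespace FPM



theorem ce_cont_dd : Continuous (fun q : M × M => dd q.1 q.2) := by
  unfold dd
  have h1 : Continuous (fun q : M × M => ((q.1.1 : Sph) : Q)) := by fun_prop
  have h2 : Continuous (fun q : M × M => ((q.2.1 : Sph) : Q)) := by fun_prop
  have h3 : Continuous (fun q : M × M => ((q.1.2 : Sph) : Q)) := by fun_prop
  have h4 : Continuous (fun q : M × M => ((q.2.2 : Sph) : Q)) := by fun_prop
  exact ((h1.sub h2).norm).add ((h3.sub h4).norm)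

theorem ce_dd_comm (x z : M) : dd x z = dd z x := by
  unfold dd; rw [norm_sub_rev, norm_sub_rev (x.2 : Q)]

theorem ce_dd_nonneg (x z : M) : 0 ≤ dd x z := by unfold dd; positivity

theorem ce_integrable (f : M → ℝ) (hf : Continuous f) : Integrable f mu := by
  haveI := mu_prob
  exact hf.integrable_of_hasCompactSupport (HasCompactSupport.of_compactSpace _)

/-- sections of a jointly continuous function -/
theorem ce_sec (F : M → M → ℝ) (hF : Continuous (fun q : M × M => F q.1 q.2)) (x : M) :
    Continuous (fun z => F x z) := by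
  have h : Continuous (fun z : M => ((x, z) : M × M)) := by fun_prop
  exact hF.comp h

/-- abstract version -/
theorem ce_bound_abs (D K R : M → M → ℝ) (hD : Continuous (fun q : M × M => D q.1 q.2))
    (hK : Continuous (fun q : M × M => K q.1 q.2)) (hR : Continuous (fun q : M × M => R q.1 q.2))
    (I : ℝ) (hI : 0 < I) (x : M) (hI2 : ∫ z, R x z ∂mu = I)
    (hb : ∫ z, D x z * |K x z| ∂mu ≤ 15 * I) (L P : ℝ) (hL : 0 ≤ L)
    (g : M → ℝ) (hg : ∀ z, |g z| ≤ I⁻¹ * (L * (D x z * |K x z|) + P * R x z)) :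
    ∫ z, |g z| ∂mu ≤ 15 * L + P := by
  haveI := mu_prob
  have hc1 : Continuous (fun z => D x z * |K x z|) := (ce_sec D hD x).mul (ce_sec K hK x).abs
  have hc2 : Continuous (fun z => R x z) := ce_sec R hR x
  have i1 := ce_integrable _ hc1
  have i2 := ce_integrable _ hc2
  have i3 : Integrable (fun z => I⁻¹ * (L * (D x z * |K x z|) + P * R x z)) mu :=
    ((i1.const_mul L).add (i2.const_mul P)).const_mul _
  have hle : ∫ z, |g z| ∂mu ≤ ∫ z, I⁻¹ * (L * (D x z * |K x z|) + P * R x z) ∂mu := by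
    refine integral_mono_of_nonneg (Filter.Eventually.of_forall (fun z => abs_nonneg _)) i3
      (Filter.Eventually.of_forall hg)
  refine hle.trans ?_
  rw [integral_const_mul, integral_add (i1.const_mul L) (i2.const_mul P), integral_const_mul,
    integral_const_mul, hI2]
  have h1 : L * ∫ z, D x z * |K x z| ∂mu ≤ L * (15 * I) := mul_le_mul_of_nonneg_left hb hL
  calc I⁻¹ * (L * (∫ z, D x z * |K x z| ∂mu) + P * I)
      ≤ I⁻¹ * (L * (15 * I) + P * I) :=
        mul_le_mul_of_nonneg_left (by linarith) (inv_nonneg.2 hI.le)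
    _ = 15 * L + P := by field_simp

theorem ce_cont_kr (m : ℕ) : Continuous (fun q : M × M => kr m q.1 q.2) := (kk_props m m).2.2.1

theorem ce_cont_dkr (i : Fin 6) (m : ℕ) : Continuous (fun q : M × M => dkr i m q.1 q.2) :=
  (dkr_props i m).2

/-- the common estimate -/
theorem ce_bound (i : Fin 6) (m : ℕ) (hm : 4 ≤ m) (L P : ℝ) (hL : 0 ≤ L) (x : M)
    (g : M → ℝ) (hg : ∀ z, |g z| ≤ (Im m)⁻¹ * (L * (dd x z * |dkr i m x z|) + P * kr m x z)) :
    ∫ z, |g z| ∂mu ≤ 15 * L + P := by
  exact ce_bound_abs dd (dkr i m) (kr m) ce_cont_dd (ce_cont_dkr i m) (ce_cont_kr m) (Im m)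
    (kr_int m x).1 x (kr_int m x).2 (dkr_bound i m hm x) L P hL g hg

theorem comm_E (p : M → ℝ) (hp : Sm p) (i : Fin 6) : ∃ C : ℝ, 0 ≤ C ∧
    (∀ m, 4 ≤ m → ∀ u, Sm u →
      n2 (fun x => p x * E i (Jm m u) x - Jm m (fun z => p z * E i u z) x) ≤ C * n2 u) ∧
    (∀ u, Sm u → Filter.Tendsto
      (fun m => n2 (fun x => p x * E i (Jm m u) x - Jm m (fun z => p z * E i u z) x))
      Filter.atTop (nhds 0)) := by
  haveI := mu_prob
  obtain ⟨L, hL, hLip⟩ := sm_lip p hp
  have hEc : Continuous (E i p) := sm_cont _ (E_sm i p hp)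
  have hpc : Continuous p := sm_cont _ hp
  obtain ⟨P, hP⟩ : ∃ P, ∀ x, |E i p x| ≤ P := by
    obtain ⟨P, hP⟩ := isCompact_univ.exists_bound_of_continuousOn (f := E i p) hEc.continuousOn
    exact ⟨P, fun x => hP x (Set.mem_univ x)⟩
  refine ⟨(15 * L + P) ^ 2, sq_nonneg _, ?_, ?_⟩
  · intro m hm u hu
    have hm1 : 1 ≤ m := by omega
    have hform : (fun x => p x * E i (Jm m u) x - Jm m (fun z => p z * E i u z) x) =
        fun x => ∫ z, ((Im m)⁻¹ * ((p x - p z) * dkr i m x z + kr m x z * E i p z)) * u z ∂mu := by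
      funext x; exact comm_E_form p hp i m hm1 u hu x
    rw [hform]
    have hIm : 0 < Im m := (kr_int m 1).1
    have hkn : ∀ x z, 0 ≤ kr m x z := fun x z => (kk_props m m).1 x z
    have hks : ∀ x z, kr m x z = kr m z x := fun x z => (kk_props m m).2.1 x z
    have key : ∀ x z, |(Im m)⁻¹ * ((p x - p z) * dkr i m x z + kr m x z * E i p z)|
        ≤ (Im m)⁻¹ * (L * (dd x z * |dkr i m x z|) + P * kr m x z) := by
      intro x z
      rw [abs_mul, abs_of_pos (inv_pos.2 hIm)]
      refine mul_le_mul_of_nonneg_left ?_ (inv_nonneg.2 hIm.le)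
      refine (abs_add_le _ _).trans ?_
      rw [abs_mul, abs_mul, abs_of_nonneg (hkn x z)]
      have h1 : |p x - p z| * |dkr i m x z| ≤ (L * dd x z) * |dkr i m x z| :=
        mul_le_mul_of_nonneg_right (hLip x z) (abs_nonneg _)
      have h2 : kr m x z * |E i p z| ≤ kr m x z * P := mul_le_mul_of_nonneg_left (hP z) (hkn x z)
      nlinarith
    refine schur (fun x z => (Im m)⁻¹ * ((p x - p z) * dkr i m x z + kr m x z * E i p z)) ?_
      (15 * L + P) ?_ ?_ u (sm_cont u hu)
    · have a1 : Continuous (fun q : M × M => p q.1) := hpc.comp continuous_fst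
      have a2 : Continuous (fun q : M × M => p q.2) := hpc.comp continuous_snd
      have a3 : Continuous (fun q : M × M => dkr i m q.1 q.2) := (dkr_props i m).2
      have a4 : Continuous (fun q : M × M => kr m q.1 q.2) := (kk_props m m).2.2.1
      have a5 : Continuous (fun q : M × M => E i p q.2) := hEc.comp continuous_snd
      exact continuous_const.mul (((a1.sub a2).mul a3).add (a4.mul a5))
    · intro x
      exact ce_bound i m hm L P hL x _ (key x)
    · intro z
      refine ce_bound i m hm L P hL z _ ?_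
      intro x
      refine (key x z).trans ?_
      rw [ce_dd_comm x z, hks x z]
      have : |dkr i m x z| = |dkr i m z x| := by
        rw [(dkr_props i m).1 x z, abs_neg]
      rw [this]
  · intro u hu
    obtain ⟨C, hC, h1, h2⟩ := comm_mul p hp
    have h3 := h2 (E i u) (sm_cont _ (E_sm i u hu))
    refine h3.congr' ?_
    filter_upwards [Filter.eventually_ge_atTop 1] with m hm
    congr 1
    funext x
    rw [E_Jm_comm i m hm u hu x]

end FPM
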