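import Pool.Agent.Helper427.FPM.Defs
import Pool.Agent.Helper427.FPM.P_mu_prob
import Pool.Agent.Helper427.FPM.P_sm_basic
import Pool.Agent.Helper427.FPM.P_sm_cont
import Pool.Agent.Helper427.FPM.P_E_sm
import Pool.Agent.Helper427.FPM.P_E_alg
import Pool.Agent.Helper427.FPM.P_ibp
import Pool.Agent.Helper427.FPM.P_kk_props
import Pool.Agent.Helper427.FPM.P_dkr_props
import Pool.Agent.Helper427.FPM.P_dkr_deriv
import Pool.Agent.Helper427.FPM.P_E_Jm

open scoped Quaternion ContDiff
open MeasureTheory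

namespace FPM



theorem comm_E_form (p : M → ℝ) (hp : Sm p) (i : Fin 6) (m : ℕ) (hm : 1 ≤ m) (u : M → ℝ)
    (hu : Sm u) (x : M) :
    p x * E i (Jm m u) x - Jm m (fun z => p z * E i u z) x =
      ∫ z, ((Im m)⁻¹ * ((p x - p z) * dkr i m x z + kr m x z * E i p z)) * u z ∂mu := by
  have : IsProbabilityMeasure mu := mu_prob
  have hint : ∀ f : M → ℝ, Continuous f → Integrable f mu := fun f hf =>
    hf.integrable_of_hasCompactSupport (HasCompactSupport.of_compactSpace _)
  have cu := sm_cont u hu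
  have cp := sm_cont p hp
  have cEp := sm_cont _ (E_sm i p hp)
  have cEu := sm_cont _ (E_sm i u hu)
  have hkr : Sm (kr m x) := (kk_props m m).2.2.2 x
  have ckr : Continuous (kr m x) := sm_cont _ hkr
  have cpair : Continuous (fun z : M => ((x, z) : M × M)) := by fun_prop
  have key : ∀ (D : M → M → ℝ), Continuous (fun p : M × M => D p.1 p.2) → Continuous (D x) :=
    fun D hD => hD.comp cpair
  have cdkr : Continuous (dkr i m x) := key (dkr i m) (dkr_props i m).2
  have hf : Sm (fun z => kr m x z * p z) := sm_basic.2.2 _ _ hkr hp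
  have h1 := ibp i (fun z => kr m x z * p z) u hf hu
  have h2 : E i (fun z => kr m x z * p z) =
      fun z => kr m x z * E i p z + p z * (-dkr i m x z) := by
    rw [(E_alg i).2.2 _ _ hkr hp]
    funext z
    rw [(dkr_deriv i m hm x z).2]
  rw [h2] at h1
  rw [E_Jm i m hm u cu x]
  unfold Jm
  have h3 : ∫ z, kr m x z * (p z * E i u z) ∂mu =
      ∫ z, kr m x z * p z * E i u z ∂mu := by
    congr 1; funext z; ring
  rw [h3, h1]
  have h4 : p x * ((Im m)⁻¹ * ∫ z, dkr i m x z * u z ∂mu) -
      (Im m)⁻¹ * -∫ z, (kr m x z * E i p z + p z * -dkr i m x z) * u z ∂mu =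
      (Im m)⁻¹ * (∫ z, p x * (dkr i m x z * u z) ∂mu +
        ∫ z, (kr m x z * E i p z + p z * -dkr i m x z) * u z ∂mu) := by
    rw [integral_const_mul]; ring
  rw [h4, ← integral_add (hint _ (by fun_prop)) (hint _ (by fun_prop)), ← integral_const_mul]
  congr 1; funext z; ring

end FPM
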